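import Pool.Agent.Helper89.Stx.Defs
import Pool.Agent.Helper65.Stz.Basic

/-!
# Finite model with `r` space variables: Parseval and duality

* `orthR`: orthogonality of characters of `(ZMod A)^r`; `pars`, `bess`: Parseval and Bessel in space;
* `l2y`, `l2zy`: the `L²` norm of the exponential sum, at a fixed time and in space-time;
* `En_ge`: a set on which the exponential sum is large carries a function with large energy.
-/

set_option autoImplicit false

namespace Stx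

open Finset Stz

open scoped ComplexConjugate

section char

variable (A r : ℕ) [NeZero A]

theorem sum_psR (x : Fin r → ZMod A) :
    ∑ y : Fin r → ZMod A, ps A (∑ l, y l * x l) = if x = 0 then (A : ℂ) ^ r else 0 := by
  have h1 : ∀ y : Fin r → ZMod A, ps A (∑ l, y l * x l) = ∏ l, ps A (y l * x l) := by
    intro y
    have key : ∀ s : Finset (Fin r), ps A (∑ l ∈ s, y l * x l) = ∏ l ∈ s, ps A (y l * x l) := by
      intro s
      induction s using Finset.induction_on with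
      | empty => rw [sum_empty, prod_empty, ps_zero]
      | insert l s hl ih => rw [sum_insert hl, prod_insert hl, ps_add, ih]
    exact key univ
  simp only [h1]
  have h2 := Finset.prod_univ_sum (fun _ : Fin r => (univ : Finset (ZMod A)))
    (fun (l : Fin r) (k : ZMod A) => ps A (k * x l))
  rw [Fintype.piFinset_univ] at h2
  rw [← h2]
  simp only [sum_ps]
  split_ifs with h
  · subst h
    simp
  · obtain ⟨l, hl⟩ := Function.ne_iff.mp h
    exact prod_eq_zero (mem_univ l) (if_neg hl)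

/-- Orthogonality of characters -/
theorem orthR {ι : Type*} (S : Finset ι) (φ : ι → Fin r → ZMod A) (hφ : Set.InjOn φ S) (c : ι → ℂ) :
    ((A : ℝ)⁻¹) ^ r * ∑ y : Fin r → ZMod A, ‖∑ i ∈ S, c i * ps A (∑ l, φ i l * y l)‖ ^ 2 =
      ∑ i ∈ S, ‖c i‖ ^ 2 := by
  classical
  have hA : (A : ℂ) ≠ 0 := Nat.cast_ne_zero.mpr (NeZero.ne A)
  have key : ((∑ y : Fin r → ZMod A, ‖∑ i ∈ S, c i * ps A (∑ l, φ i l * y l)‖ ^ 2 : ℝ) : ℂ) =
      (A : ℂ) ^ r * ((∑ i ∈ S, ‖c i‖ ^ 2 : ℝ) : ℂ) := by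
    rw [Complex.ofReal_sum, Complex.ofReal_sum]
    simp only [sq_norm_eq]
    calc ∑ y : Fin r → ZMod A, (∑ i ∈ S, c i * ps A (∑ l, φ i l * y l)) *
          conj (∑ i ∈ S, c i * ps A (∑ l, φ i l * y l))
        = ∑ y : Fin r → ZMod A, ∑ i ∈ S, ∑ j ∈ S,
            (c i * conj (c j)) * ps A (∑ l, y l * (φ i - φ j) l) := by
          refine sum_congr rfl fun y _ => ?_
          rw [map_sum, sum_mul_sum]
          refine sum_congr rfl fun i _ => sum_congr rfl fun j _ => ?_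
          rw [map_mul]
          calc c i * ps A (∑ l, φ i l * y l) * (conj (c j) * conj (ps A (∑ l, φ j l * y l)))
              = c i * conj (c j) * (ps A (∑ l, φ i l * y l) * conj (ps A (∑ l, φ j l * y l))) := by
                ring
            _ = _ := by
              rw [ps_mul_conj, ← sum_sub_distrib]
              congr 2
              refine sum_congr rfl fun l _ => ?_
              rw [Pi.sub_apply]
              ring
      _ = ∑ i ∈ S, ∑ j ∈ S, (c i * conj (c j)) *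
            ∑ y : Fin r → ZMod A, ps A (∑ l, y l * (φ i - φ j) l) := by
          rw [sum_comm]
          refine sum_congr rfl fun i _ => ?_
          rw [sum_comm]
          refine sum_congr rfl fun j _ => ?_
          rw [mul_sum]
      _ = ∑ i ∈ S, c i * conj (c i) * (A : ℂ) ^ r := by
          refine sum_congr rfl fun i hi => ?_
          rw [sum_eq_single i]
          · rw [sum_psR, sub_self, if_pos rfl]
          · intro j hj hji
            rw [sum_psR, if_neg, mul_zero]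
            intro h
            exact hji (hφ hj hi (sub_eq_zero.mp h).symm)
          · intro h
            exact absurd hi h
      _ = (A : ℂ) ^ r * ∑ i ∈ S, c i * conj (c i) := by
          rw [mul_sum]
          refine sum_congr rfl fun i _ => ?_
          ring
  have h2 : ∑ y : Fin r → ZMod A, ‖∑ i ∈ S, c i * ps A (∑ l, φ i l * y l)‖ ^ 2 =
      (A : ℝ) ^ r * ∑ i ∈ S, ‖c i‖ ^ 2 := by
    exact_mod_cast key
  rw [h2, ← mul_assoc, inv_pow, inv_mul_cancel₀, one_mul]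
  exact pow_ne_zero _ (Nat.cast_ne_zero.mpr (NeZero.ne A))

/-- Parseval in space -/
theorem parsevalR (g : (Fin r → ZMod A) → ℂ) :
    ∑ k : Fin r → ZMod A, ‖((A : ℂ)⁻¹) ^ r * ∑ y, g y * ps A (∑ l, k l * y l)‖ ^ 2 =
      ((A : ℝ)⁻¹) ^ r * ∑ y, ‖g y‖ ^ 2 := by
  have h := orthR A r (univ : Finset (Fin r → ZMod A)) id (fun _ _ _ _ h => h) g
  rw [← h, ← mul_assoc, mul_sum]
  refine sum_congr rfl fun k _ => ?_
  rw [norm_mul, mul_pow, norm_pow, norm_inv, Complex.norm_natCast, sq (((A : ℝ)⁻¹) ^ r)]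
  congr 3
  refine sum_congr rfl fun y _ => ?_
  congr 2
  refine sum_congr rfl fun l _ => ?_
  rw [id, mul_comm]

omit [NeZero A] in
theorem inj_int {S : Finset (Fin r → ℤ)} (hS : ∀ m ∈ S, ∀ l, 2 * |m l| < A) :
    Set.InjOn (fun (m : Fin r → ℤ) (l : Fin r) => ((m l : ℤ) : ZMod A)) S := by
  intro m hm m' hm' h
  funext l
  have h1 : ((m l : ℤ) : ZMod A) = ((m' l : ℤ) : ZMod A) := congrFun h l
  rw [ZMod.intCast_eq_intCast_iff_dvd_sub] at h1
  have h2 := hS m hm l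
  have h3 := hS m' hm' l
  have h4 := Int.eq_zero_of_abs_lt_dvd h1 (by
    have h5 : |m' l - m l| ≤ |m' l| + |m l| := abs_sub _ _
    omega)
  omega

omit [NeZero A] in
theorem inj_nat {N : ℕ} (hN : N ≤ A) :
    Set.InjOn (fun (m : Fin r → ℕ) (l : Fin r) => ((m l : ℕ) : ZMod A)) (IJ r N : Set (Fin r → ℕ)) := by
  intro m hm m' hm' h
  funext l
  have h1 : ((m l : ℕ) : ZMod A) = ((m' l : ℕ) : ZMod A) := congrFun h l
  rw [mem_coe, Fintype.mem_piFinset] at hm hm'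
  have h2 := mem_range.mp (hm l)
  have h3 := mem_range.mp (hm' l)
  have h4 := (ZMod.natCast_eq_natCast_iff' (m l) (m' l) A).mp h1
  rwa [Nat.mod_eq_of_lt (by omega), Nat.mod_eq_of_lt (by omega)] at h4

end char

theorem pars (A r : ℕ) [NeZero A] (S : Finset (Fin r → ℤ)) (hS : ∀ m ∈ S, ∀ l, 2 * |m l| < A)
    (c : (Fin r → ℤ) → ℂ) :
    ((A : ℝ)⁻¹) ^ r * ∑ y : Fin r → ZMod A, ‖∑ m ∈ S, c m * ps A (dt m y)‖ ^ 2 =
      ∑ m ∈ S, ‖c m‖ ^ 2 :=
  orthR A r S (fun m l => ((m l : ℤ) : ZMod A)) (inj_int A r hS) c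

theorem bess (A r : ℕ) [NeZero A] (S : Finset (Fin r → ℤ)) (hS : ∀ m ∈ S, ∀ l, 2 * |m l| < A)
    (f : ZMod A → (Fin r → ZMod A) → ℂ) (z : ZMod A) :
    ∑ m ∈ S, ‖fm A r f m z‖ ^ 2 ≤ ((A : ℝ)⁻¹) ^ r * ∑ y, ‖f z y‖ ^ 2 := by
  classical
  rw [← parsevalR A r (f z)]
  calc ∑ m ∈ S, ‖fm A r f m z‖ ^ 2
      = ∑ k ∈ S.image (fun (m : Fin r → ℤ) (l : Fin r) => ((m l : ℤ) : ZMod A)),
          ‖((A : ℂ)⁻¹) ^ r * ∑ y, f z y * ps A (∑ l, k l * y l)‖ ^ 2 :=
        (sum_image (f := fun k : Fin r → ZMod A =>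
          ‖((A : ℂ)⁻¹) ^ r * ∑ y, f z y * ps A (∑ l, k l * y l)‖ ^ 2) (inj_int A r hS)).symm
    _ ≤ _ := sum_le_sum_of_subset_of_nonneg (subset_univ _) fun _ _ _ => sq_nonneg _

theorem l2y (A r N : ℕ) [NeZero A] (hN : N ≤ A) (I : Finset ℕ)
    (a : ℕ → (Fin r → ℕ) → ℂ) (z : ZMod A) :
    ((A : ℝ)⁻¹) ^ r * ∑ y, ‖F A r I N a z y‖ ^ 2 =
      ∑ m ∈ IJ r N, ‖∑ n ∈ I, a n m * ps A (((n ^ 2 : ℕ) : ZMod A) * z)‖ ^ 2 := by
  have h := orthR A r (IJ r N) (fun m l => ((m l : ℕ) : ZMod A)) (inj_nat A r hN)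
    (fun m => (∑ n ∈ I, a n m * ps A (((n ^ 2 : ℕ) : ZMod A) * z)) *
      ps A (((∑ l, m l ^ 2 : ℕ) : ZMod A) * z))
  simp only [norm_mul, norm_ps, mul_one] at h
  rw [← h]
  congr 1
  refine sum_congr rfl fun y _ => ?_
  congr 2
  unfold F
  rw [sum_comm]
  refine sum_congr rfl fun m _ => ?_
  rw [sum_mul, sum_mul]
  refine sum_congr rfl fun n _ => ?_
  rw [ps_add, Nat.cast_add, add_mul, ps_add]
  ring

theorem l2zy (A r N : ℕ) [NeZero A] (hN : N ≤ A) (I : Finset ℕ) (hI : ∀ n ∈ I, n ^ 2 < A)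
    (a : ℕ → (Fin r → ℕ) → ℂ) :
    ((A : ℝ)⁻¹) ^ (r + 1) * ∑ z : ZMod A, ∑ y, ‖F A r I N a z y‖ ^ 2 = nsq r I N a := by
  have h1 : ((A : ℝ)⁻¹) ^ (r + 1) * ∑ z : ZMod A, ∑ y, ‖F A r I N a z y‖ ^ 2 =
      ∑ m ∈ IJ r N, (A : ℝ)⁻¹ * ∑ z : ZMod A,
        ‖∑ n ∈ I, a n m * ps A (((n ^ 2 : ℕ) : ZMod A) * z)‖ ^ 2 := by
    calc ((A : ℝ)⁻¹) ^ (r + 1) * ∑ z : ZMod A, ∑ y, ‖F A r I N a z y‖ ^ 2
        = (A : ℝ)⁻¹ * ∑ z : ZMod A, (((A : ℝ)⁻¹) ^ r * ∑ y, ‖F A r I N a z y‖ ^ 2) := by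
          rw [pow_succ', mul_assoc, mul_sum]
      _ = (A : ℝ)⁻¹ * ∑ z : ZMod A, ∑ m ∈ IJ r N,
            ‖∑ n ∈ I, a n m * ps A (((n ^ 2 : ℕ) : ZMod A) * z)‖ ^ 2 := by
          congr 1
          exact sum_congr rfl fun z _ => l2y A r N hN I a z
      _ = _ := by
          rw [sum_comm, mul_sum]
  rw [h1]
  unfold nsq
  rw [sum_comm]
  refine sum_congr rfl fun m _ => ?_
  exact orth A I (fun n : ℕ => ((n ^ 2 : ℕ) : ZMod A)) (inj_sq A I hI) (fun n => a n m)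

/-! ## Duality -/

theorem csR {α β : Type*} (I : Finset α) (J : Finset β) (a g : α → β → ℂ) :
    ‖∑ n ∈ I, ∑ m ∈ J, a n m * g n m‖ ^ 2 ≤
      (∑ n ∈ I, ∑ m ∈ J, ‖a n m‖ ^ 2) * ∑ n ∈ I, ∑ m ∈ J, ‖g n m‖ ^ 2 := by
  rw [← sum_product', ← sum_product', ← sum_product']
  have h1 : ‖∑ x ∈ I ×ˢ J, a x.1 x.2 * g x.1 x.2‖ ≤ ∑ x ∈ I ×ˢ J, ‖a x.1 x.2‖ * ‖g x.1 x.2‖ := by
    refine (norm_sum_le _ _).trans (le_of_eq ?_)
    exact sum_congr rfl fun x _ => norm_mul _ _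
  have h2 := sum_mul_sq_le_sq_mul_sq (I ×ˢ J) (fun x => ‖a x.1 x.2‖) (fun x => ‖g x.1 x.2‖)
  exact (pow_le_pow_left₀ (norm_nonneg _) h1 2).trans h2

/-- duality: a set on which `|F|` is large carries a function with large energy -/
theorem En_ge (A r N : ℕ) [NeZero A] (I : Finset ℕ) (a : ℕ → (Fin r → ℕ) → ℂ)
    (ha : nsq r I N a ≤ 1) (W : Finset (ZMod A × (Fin r → ZMod A))) (lam : ℝ) (hlam : 0 ≤ lam)
    (hW : ∀ w ∈ W, lam ≤ ‖F A r I N a w.1 w.2‖) :
    ∃ f : ZMod A → (Fin r → ZMod A) → ℂ, (∀ z y, ‖f z y‖ ≤ 1) ∧ (∀ z y, (z, y) ∉ W → f z y = 0) ∧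
      lam ^ 2 * mu A r W ^ 2 ≤ En A r I N f := by
  classical
  have hA : (0 : ℝ) < A := Nat.cast_pos.mpr (Nat.pos_of_ne_zero (NeZero.ne A))
  set f : ZMod A → (Fin r → ZMod A) → ℂ := fun z y =>
    if (z, y) ∈ W then conj (F A r I N a z y) / (‖F A r I N a z y‖ : ℂ) else 0 with hf
  refine ⟨f, ?_, ?_, ?_⟩
  · intro z y
    rw [hf]
    by_cases h : (z, y) ∈ W
    · simp only [h, if_true]
      exact (phase _).1
    · simp [h]
  · intro z y h
    rw [hf]
    simp [h]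
  · have h1 : ∑ n ∈ I, ∑ m ∈ IJ r N, a n m *
          ft A (fm A r f fun l => (m l : ℤ)) ((n ^ 2 + ∑ l, m l ^ 2 : ℕ) : ZMod A) =
        ((A : ℂ)⁻¹) ^ (r + 1) * ∑ z : ZMod A, ∑ y, f z y * F A r I N a z y := by
      unfold ft fm F dt
      simp only [mul_sum, sum_mul]
      rw [comm3]
      refine sum_congr rfl fun z _ => ?_
      rw [comm3]
      refine sum_congr rfl fun y _ => sum_congr rfl fun n _ => sum_congr rfl fun m _ => ?_
      rw [ps_add]
      simp only [Int.cast_natCast]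
      ring
    have h2 : ∑ z : ZMod A, ∑ y, f z y * F A r I N a z y =
        ((∑ w ∈ W, ‖F A r I N a w.1 w.2‖ : ℝ) : ℂ) := by
      rw [← sum_product', univ_product_univ, Complex.ofReal_sum]
      have h3 : ∀ w : ZMod A × (Fin r → ZMod A), f w.1 w.2 * F A r I N a w.1 w.2 =
          if w ∈ W then (‖F A r I N a w.1 w.2‖ : ℂ) else 0 := by
        intro w
        rw [hf]
        by_cases h : w ∈ W
        · simp only [h, Prod.mk.eta, if_true]
          exact (phase _).2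
        · simp [h]
      simp only [h3]
      rw [sum_ite_mem, univ_inter]
    have h4 : lam * W.card ≤ ∑ w ∈ W, ‖F A r I N a w.1 w.2‖ := by
      have := card_nsmul_le_sum W (fun w => ‖F A r I N a w.1 w.2‖) lam hW
      rw [nsmul_eq_mul] at this
      linarith
    have h5 := csR I (IJ r N) a fun n m =>
      ft A (fm A r f fun l => (m l : ℤ)) ((n ^ 2 + ∑ l, m l ^ 2 : ℕ) : ZMod A)
    rw [h1, h2, norm_mul, norm_pow, norm_inv, Complex.norm_natCast, Complex.norm_real,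
      Real.norm_of_nonneg (sum_nonneg fun w _ => norm_nonneg _)] at h5
    have hEn : 0 ≤ En A r I N f := sum_nonneg fun n _ => sum_nonneg fun m _ => sq_nonneg _
    have h6 : nsq r I N a * En A r I N f ≤ En A r I N f := by
      calc nsq r I N a * En A r I N f ≤ 1 * En A r I N f := mul_le_mul_of_nonneg_right ha hEn
        _ = _ := one_mul _
    refine le_trans ?_ (h5.trans h6)
    rw [← mul_pow]
    unfold mu
    apply pow_le_pow_left₀ (by positivity)
    calc lam * ((W.card : ℝ) / (A : ℝ) ^ (r + 1)) = ((A : ℝ)⁻¹) ^ (r + 1) * (lam * W.card) := by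
          rw [inv_pow]; field_simp
      _ ≤ _ := mul_le_mul_of_nonneg_left h4 (by positivity)

end Stx
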