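import Pool.Agent.Helper65.Stx.Md

/-!
# Middle levels with `r` space variables: the basic inequality (continued)
-/

set_option autoImplicit false

namespace Stx.Md

open Finset Stz

/-- oscillation in a block -/
theorem osc_le (r N l A : ℕ) (hN : 1 ≤ N) (hA : 0 < A) (hl : l = A / (N + 1) ^ (r + 12))
    (j : ℝ) (hjl : |j| ≤ l) :
    Real.sqrt ((N : ℝ) ^ (r + 1)) * (2 * Real.pi * (((N + 1 : ℕ) : ℝ) ^ 5 * |j|) / A) ≤ 1 / 2 := by
  have hpi : Real.pi < 4 := by linarith [Real.pi_lt_d2]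
  have hN1 : (1 : ℝ) ≤ N := by exact_mod_cast hN
  have hAr : (0 : ℝ) < A := by exact_mod_cast hA
  have hNN : (N : ℝ) ≤ ((N + 1 : ℕ) : ℝ) := by push_cast; linarith
  have h2N : (2 : ℝ) ≤ ((N + 1 : ℕ) : ℝ) := by push_cast; linarith
  have hlA : (l : ℝ) ≤ A / ((N + 1 : ℕ) : ℝ) ^ (r + 12) := by
    rw [hl]
    refine Nat.cast_div_le.trans (le_of_eq ?_)
    push_cast
    rfl
  set T : ℝ := ((N + 1 : ℕ) : ℝ) with hT
  have hT0 : 0 < T := by linarith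
  have hT1 : 1 ≤ T := by linarith
  have hs : Real.sqrt ((N : ℝ) ^ (r + 1)) ≤ T ^ (r + 1) := by
    rw [Real.sqrt_le_iff]
    refine ⟨by positivity, ?_⟩
    calc (N : ℝ) ^ (r + 1) ≤ T ^ (r + 1) := pow_le_pow_left₀ (by linarith) hNN _
      _ = T ^ (r + 1) * 1 := (mul_one _).symm
      _ ≤ T ^ (r + 1) * T ^ (r + 1) := mul_le_mul_of_nonneg_left (one_le_pow₀ hT1) (by positivity)
      _ = (T ^ (r + 1)) ^ 2 := by ring
  have hj : |j| ≤ A / T ^ (r + 12) := hjl.trans hlA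
  have h1 : 2 * Real.pi * (T ^ 5 * |j|) / A ≤ 8 * T ^ 5 / T ^ (r + 12) := by
    rw [div_le_iff₀ hAr]
    calc 2 * Real.pi * (T ^ 5 * |j|) ≤ 2 * 4 * (T ^ 5 * (A / T ^ (r + 12))) := by
          apply mul_le_mul _ _ (by positivity) (by norm_num)
          · linarith
          · exact mul_le_mul_of_nonneg_left hj (by positivity)
      _ = 8 * T ^ 5 / T ^ (r + 12) * A := by ring
  calc Real.sqrt ((N : ℝ) ^ (r + 1)) * (2 * Real.pi * (T ^ 5 * |j|) / A)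
      ≤ T ^ (r + 1) * (8 * T ^ 5 / T ^ (r + 12)) :=
        mul_le_mul hs h1 (by positivity) (by positivity)
    _ ≤ 1 / 2 := by
      rw [← mul_div_assoc, div_le_iff₀ (by positivity)]
      have h2 : (16 : ℝ) ≤ T ^ 6 := by
        calc (16 : ℝ) ≤ 2 ^ 6 := by norm_num
          _ ≤ T ^ 6 := pow_le_pow_left₀ (by norm_num) h2N 6
      calc T ^ (r + 1) * (8 * T ^ 5) = 1 / 2 * (T ^ (r + 6) * 16) := by ring
        _ ≤ 1 / 2 * (T ^ (r + 6) * T ^ 6) := by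
            apply mul_le_mul_of_nonneg_left _ (by norm_num)
            exact mul_le_mul_of_nonneg_left h2 (by positivity)
        _ = 1 / 2 * T ^ (r + 12) := by ring

/-- the contribution of very high frequencies -/
theorem tiny_le (r N q : ℕ) (hN : 1 ≤ N) (hq : q ≤ N) (lam V : ℝ)
    (hlam : lam ^ 2 ≤ (N : ℝ) ^ (r + 1)) (hV0 : 0 ≤ V)
    (hV : V ≤ 3 * ((N + 1 : ℕ) : ℝ) ^ (r + 12)) :
    lam ^ 4 * (q : ℝ) ^ 2 * V ^ 2 ≤ 4 * (((N + 1 : ℕ) : ℝ) ^ (4 * r + 30) + 1) := by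
  have hN1 : (1 : ℝ) ≤ N := by exact_mod_cast hN
  have hNN : (N : ℝ) ≤ ((N + 1 : ℕ) : ℝ) := by push_cast; linarith
  have h2N : (2 : ℝ) ≤ ((N + 1 : ℕ) : ℝ) := by push_cast; linarith
  have hqN : (q : ℝ) ≤ N := by exact_mod_cast hq
  set T : ℝ := ((N + 1 : ℕ) : ℝ) with hT
  have hT0 : 0 < T := by linarith
  have h1 : lam ^ 4 ≤ (T ^ (r + 1)) ^ 2 := by
    have h2 : lam ^ 2 ≤ T ^ (r + 1) := hlam.trans (pow_le_pow_left₀ (by linarith) hNN _)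
    calc lam ^ 4 = (lam ^ 2) ^ 2 := by ring
      _ ≤ _ := pow_le_pow_left₀ (sq_nonneg _) h2 2
  have h2 : (q : ℝ) ^ 2 ≤ T ^ 2 := pow_le_pow_left₀ (Nat.cast_nonneg _) (hqN.trans hNN) 2
  have h3 : V ^ 2 ≤ (3 * T ^ (r + 12)) ^ 2 := pow_le_pow_left₀ hV0 hV 2
  have h4 : (4 : ℝ) ≤ T ^ 2 := by
    calc (4 : ℝ) = 2 ^ 2 := by norm_num
      _ ≤ T ^ 2 := pow_le_pow_left₀ (by norm_num) h2N 2
  calc lam ^ 4 * (q : ℝ) ^ 2 * V ^ 2 ≤ (T ^ (r + 1)) ^ 2 * T ^ 2 * (3 * T ^ (r + 12)) ^ 2 := by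
        apply mul_le_mul _ h3 (by positivity) (by positivity)
        exact mul_le_mul h1 h2 (by positivity) (by positivity)
    _ = 9 * T ^ (4 * r + 28) := by ring
    _ ≤ 16 * T ^ (4 * r + 28) := by
        apply mul_le_mul_of_nonneg_right (by norm_num) (by positivity)
    _ = 4 * (4 * T ^ (4 * r + 28)) := by ring
    _ ≤ 4 * (T ^ 2 * T ^ (4 * r + 28)) := by
        apply mul_le_mul_of_nonneg_left _ (by norm_num)
        exact mul_le_mul_of_nonneg_right h4 (by positivity)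
    _ = 4 * T ^ (4 * r + 30) := by ring
    _ ≤ 4 * (T ^ (4 * r + 30) + 1) := by linarith

theorem quad {X α β : ℝ} (hα : 0 ≤ α) (hβ : 0 ≤ β) (h : X ^ 2 ≤ α * X + β ^ 2) : X ≤ α + β := by
  by_contra hc
  push Not at hc
  have h1 : 0 < X := by linarith
  have h2 : (α + β) * X < X * X := mul_lt_mul_of_pos_right hc h1
  have h3 : β * β ≤ β * X := mul_le_mul_of_nonneg_left (by linarith) hβ
  nlinarith

/-- final algebra -/
theorem algebra_end (r : ℕ) (lam μ q B M G V T : ℝ) (hlam : 0 < lam) (hq : 0 < q) (hT : 0 < T)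
    (hG : 0 ≤ G) (hM : 0 ≤ M) (hμ : 0 ≤ μ)
    (h : (lam / 2) ^ 2 * μ ^ 2 ≤ 2 ^ (r + 2) / q * μ + 4 / q ^ 2 * (B * (q ^ 2 * μ ^ 2 +
      (2 * M) ^ 2 * (16 * ((lam ^ 4)⁻¹ * G)) + q ^ 2 * (V ^ 2 / (4 * T)))))
    (hB : 32 * B ≤ lam ^ 2) (htiny : lam ^ 4 * q ^ 2 * V ^ 2 ≤ 4 * T) :
    lam ^ 2 * q * μ ≤ 2 ^ (r + 5) + (8 * M * Real.sqrt G + 1) := by
  apply quad (by positivity) (by positivity)
  have hl4 : 0 < lam ^ 4 := by positivity
  set g : ℝ := (lam ^ 4)⁻¹ * G with hg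
  have hg0 : 0 ≤ g := by positivity
  set S : ℝ := q ^ 2 * μ ^ 2 + (2 * M) ^ 2 * (16 * g) + q ^ 2 * (V ^ 2 / (4 * T)) with hS
  have hS0 : 0 ≤ S := by positivity
  have h1 : 4 / q ^ 2 * (B * S) ≤ lam ^ 2 / 8 / q ^ 2 * S := by
    have h2 : 4 * B ≤ lam ^ 2 / 8 := by linarith
    calc 4 / q ^ 2 * (B * S) = 4 * B * (S / q ^ 2) := by ring
      _ ≤ lam ^ 2 / 8 * (S / q ^ 2) := mul_le_mul_of_nonneg_right h2 (by positivity)
      _ = _ := by ring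
  have h2 := h.trans (add_le_add le_rfl h1)
  have h3 : (8 * lam ^ 2 * q ^ 2) * ((lam / 2) ^ 2 * μ ^ 2) ≤
      (8 * lam ^ 2 * q ^ 2) * (2 ^ (r + 2) / q * μ + lam ^ 2 / 8 / q ^ 2 * S) :=
    mul_le_mul_of_nonneg_left h2 (by positivity)
  have h4 : (8 * lam ^ 2 * q ^ 2) * ((lam / 2) ^ 2 * μ ^ 2) = 2 * (lam ^ 2 * q * μ) ^ 2 := by ring
  have h5 : (8 * lam ^ 2 * q ^ 2) * (2 ^ (r + 2) / q * μ + lam ^ 2 / 8 / q ^ 2 * S) =
      2 ^ (r + 5) * (lam ^ 2 * q * μ) + (lam ^ 2 * q * μ) ^ 2 + 64 * M ^ 2 * G +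
        lam ^ 4 * q ^ 2 * V ^ 2 / (4 * T) := by
    rw [hS, hg]
    field_simp
    ring
  have h6 : lam ^ 4 * q ^ 2 * V ^ 2 / (4 * T) ≤ 1 := by
    rw [div_le_one (by positivity)]
    exact htiny
  have h7 : (8 * M * Real.sqrt G + 1) ^ 2 = 64 * M ^ 2 * G + 16 * (M * Real.sqrt G) + 1 := by
    have h8 : Real.sqrt G ^ 2 = G := Real.sq_sqrt hG
    calc (8 * M * Real.sqrt G + 1) ^ 2 = 64 * M ^ 2 * (Real.sqrt G ^ 2) + 16 * (M * Real.sqrt G) + 1 := by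
          ring
      _ = _ := by rw [h8]
  have h8 : 0 ≤ M * Real.sqrt G := by positivity
  rw [h4, h5] at h3
  rw [h7]
  linarith

/-- The basic inequality for the middle levels. -/
theorem core (r : ℕ) (hsieve : S_sieve r) (hbig : Stz.Md.S_big) (hft : Stz.Md.S_ft)
    (A N b : ℕ) [NeZero A] (hN : r + 1 ≤ N)
    (hb : (b : ℝ) ≤ (N : ℝ) ^ 2) (hgood : Good ((N + 1) ^ 60) A) (a : ℕ → (Fin r → ℕ) → ℂ)
    (ha : nsq r (Icc (b + 1) (b + N)) N a ≤ 1) (lam : ℝ) (hlam1 : 1 ≤ lam)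
    (hlamN : lam ^ 2 ≤ (N : ℝ) ^ (r + 1))
    (Q : Finset ℕ) (Y : ℕ) (hQ : ∀ q ∈ Q, q.Prime ∧ Y ≤ q ∧ q ≤ 2 * Y) (hY1 : 2 * N ≤ Y ^ 2)
    (hY2 : 32 * (2 ^ r * (2 * (Y : ℝ)) ^ (r + 1)) ≤ lam ^ 2) (hYN' : 2 * Y ≤ N) (hY3 : 3 ≤ Y)
    (hQc : 8 ≤ Q.card) (hQc' : 2 * (r + 12) ≤ Q.card) (G : ℝ) (hG0 : 0 ≤ G)
    (hG : (A : ℝ)⁻¹ * ∑ z : ZMod A,
      (((A : ℝ)⁻¹) ^ r * ∑ y, ‖F A r (Icc (b + 1) (b + N)) N a z y‖ ^ 2) ^ 2 ≤ G) :
    lam ^ 2 * Q.card * mu A r (lev A r (Icc (b + 1) (b + N)) N a lam) ≤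
      2 ^ (r + 5) + (8 * (4 * r + 30 : ℕ) * Real.sqrt G + 1) := by
  classical
  have hN1' : 1 ≤ N := by omega
  set I := Icc (b + 1) (b + N) with hI
  have hA0' : 0 < A := Nat.pos_of_ne_zero (NeZero.ne A)
  have hA0 : (0 : ℝ) < A := Nat.cast_pos.mpr hA0'
  have hA60 := good_le hgood
  have hAsz := size_ok hN1' hb hgood
  have hb' : b ≤ N ^ 2 := by exact_mod_cast hb
  have hIc : I.card ≤ N := by
    rw [hI, Nat.card_Icc]
    omega
  have hN1 : (1 : ℝ) ≤ N := by exact_mod_cast hN1'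
  have hsqN : (N + 1) ^ 2 = N ^ 2 + 2 * N + 1 := by ring
  have hQA : ∀ q ∈ Q, q ∣ A := by
    intro q hq
    obtain ⟨hp, _, h2⟩ := hQ q hq
    apply hgood q hp.one_lt.le
    calc q ≤ N + 1 := by omega
      _ = (N + 1) ^ 1 := (pow_one _).symm
      _ ≤ (N + 1) ^ 60 := Nat.pow_le_pow_right (by omega) (by norm_num)
  have hYN : N + 1 ≤ Y ^ 2 := by omega
  have hQ' : ∀ q ∈ Q, q.Prime ∧ Y ≤ q := fun q hq => ⟨(hQ q hq).1, (hQ q hq).2.1⟩
  -- blocks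
  set L : ℕ := (N + 1) ^ (r + 12) with hL
  have hLpos : 0 < L := Nat.pow_pos (by omega)
  have hLA : L ≤ A := by
    have h1 : ∏ q ∈ Q, q ∣ A := Finset.prod_primes_dvd A (fun q hq => (hQ q hq).1.prime) hQA
    have h2 : Y ^ Q.card ≤ ∏ q ∈ Q, q := by
      rw [← prod_const]
      exact prod_le_prod' fun q hq => (hQ q hq).2.1
    calc L ≤ (Y ^ 2) ^ (r + 12) := Nat.pow_le_pow_left hYN _
      _ = Y ^ (2 * (r + 12)) := by rw [← pow_mul]
      _ ≤ Y ^ Q.card := Nat.pow_le_pow_right (by omega) hQc'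
      _ ≤ ∏ q ∈ Q, q := h2
      _ ≤ A := Nat.le_of_dvd hA0' h1
  set l : ℕ := A / L with hl
  have hlpos : 0 < l := Nat.div_pos hLA hLpos
  have hAl : A / l ≤ 2 * L := by
    apply Nat.div_le_of_le_mul
    have h1 := Nat.div_add_mod A L
    have h2 := Nat.mod_lt A hLpos
    rw [← hl] at h1
    have h3 : L ≤ L * l := Nat.le_mul_of_pos_right L hlpos
    have h4 : l * (2 * L) = L * l + L * l := by ring
    omega
  set W0 := lev A r I N a lam with hW0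
  set W := sat A r l W0 with hW
  have hsub : W0 ⊆ W := by
    intro w hw
    rw [hW, mem_sat]
    exact ⟨w.1, rfl, hw⟩
  have hmem0 : ∀ w ∈ W0, lam ≤ ‖F A r I N a w.1 w.2‖ := by
    intro w hw
    rw [hW0] at hw
    unfold lev at hw
    exact (mem_filter.mp hw).2
  have hWF : ∀ w ∈ W, lam / 2 ≤ ‖F A r I N a w.1 w.2‖ := by
    intro w hw
    rw [hW, mem_sat] at hw
    obtain ⟨z', hz', hzW⟩ := hw
    obtain ⟨j, hj, hjl⟩ := Stz.Md.diff_block A hlpos hz'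
    have h1 := hmem0 _ hzW
    have h2 := lip A r I N hIc a ha (((N + 1 : ℕ) : ℝ) ^ 5) (by positivity) (by
      intro n hn m hm
      rw [hI, mem_Icc] at hn
      rw [Fintype.mem_piFinset] at hm
      have h3 : n ≤ (N + 1) ^ 2 := by
        rw [hsqN]
        omega
      have h4 : n ^ 2 + ∑ l, m l ^ 2 ≤ (N + 1) ^ 5 := by
        have h5 : n ^ 2 ≤ ((N + 1) ^ 2) ^ 2 := Nat.pow_le_pow_left h3 2
        have h6 : ∑ l, m l ^ 2 ≤ r * (N + 1) ^ 2 := by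
          calc ∑ l, m l ^ 2 ≤ ∑ _l : Fin r, (N + 1) ^ 2 := by
                apply sum_le_sum
                intro l _
                have h8 := mem_range.mp (hm l)
                exact Nat.pow_le_pow_left (by omega) 2
            _ = r * (N + 1) ^ 2 := by
                rw [sum_const, card_univ, Fintype.card_fin, smul_eq_mul]
        have h7 : (N + 1) ^ 2 ≤ (N + 1) ^ 4 := Nat.pow_le_pow_right (by omega) (by norm_num)
        have h9 : ((N + 1) ^ 2) ^ 2 = (N + 1) ^ 4 := by rw [← pow_mul]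
        rw [h9] at h5
        calc n ^ 2 + ∑ l, m l ^ 2 ≤ (N + 1) ^ 4 + r * (N + 1) ^ 4 :=
              add_le_add h5 (h6.trans (Nat.mul_le_mul_left r h7))
          _ = (r + 1) * (N + 1) ^ 4 := by ring
          _ ≤ (N + 1) * (N + 1) ^ 4 := Nat.mul_le_mul_right _ (by omega)
          _ = (N + 1) ^ 5 := by ring
      exact_mod_cast h4) z' w.1 w.2 j hj
    have h3 := osc_le r N l A hN1' hA0' hl j hjl
    have h4 := h2.trans h3
    have h5 := norm_sub_norm_le (F A r I N a z' w.2) (F A r I N a w.1 w.2)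
    have h6 : lam ≤ ‖F A r I N a z' w.2‖ := h1
    linarith
  -- the density
  set μ : ℝ := mu A r W with hμ
  have hμ0 : 0 ≤ μ := by
    rw [hμ]
    unfold mu
    positivity
  have hQpos : (0 : ℝ) < Q.card := by
    have : 0 < Q.card := by omega
    exact_mod_cast this
  suffices hmain : lam ^ 2 * Q.card * μ ≤ 2 ^ (r + 5) + (8 * (4 * r + 30 : ℕ) * Real.sqrt G + 1) by
    refine le_trans ?_ hmain
    exact mul_le_mul_of_nonneg_left (mu_mono A r hsub) (by positivity)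
  obtain ⟨f, hf, hfW, hEn⟩ := En_ge A r N I a ha W (lam / 2) (by linarith) hWF
  -- sieve
  have hA4 : 4 * N < A := by
    have h3 : (N + 1) ^ 3 ≤ (N + 1) ^ 60 := Nat.pow_le_pow_right (by omega) (by norm_num)
    have h4 : 4 * N < (N + 1) ^ 3 := by
      have h5 : 2 ^ 2 ≤ (N + 1) ^ 2 := Nat.pow_le_pow_left (by omega) 2
      have h6 : (N + 1) ^ 3 = (N + 1) ^ 2 * (N + 1) := pow_succ _ _
      have h7 : 2 ^ 2 * (N + 1) ≤ (N + 1) ^ 2 * (N + 1) := Nat.mul_le_mul_right _ h5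
      omega
    exact h4.trans_le (h3.trans hA60)
  have hS := hsieve A N hN1' hA4 I (by
    intro n hn
    rw [hI, mem_Icc] at hn
    refine ⟨by omega, ?_⟩
    have h3 : n ^ 2 ≤ (b + N) ^ 2 := Nat.pow_le_pow_left hn.2 2
    omega) Q (by
    intro q hq
    refine ⟨(hQ q hq).1, ?_, hQA q hq⟩
    have := (hQ q hq).2.1
    omega) (card_pos.mp (by omega)) (by
    intro n hn
    rw [hI, mem_Icc] at hn
    have h3 : n ≤ (N + 1) ^ 2 := by
      rw [hsqN]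
      omega
    have h4 := Stz.Md.card_primes_dvd N 2 n hN1' Q Y hQ' hYN (by omega) h3
    omega) f
  have hdiag := diag_le A r W f hf hfW
  have hoff : ∀ p ∈ Q.offDiag, ((Real.sqrt (p.1 * p.2))⁻¹) ^ (r + 1) *
      ∑ a ∈ range p.1, ∑ a' ∈ range p.2, (A : ℝ)⁻¹ * ∑ z : ZMod A, ((A : ℝ)⁻¹) ^ (2 * r) *
        ∑ y : Fin r → ZMod A, ∑ y' : Fin r → ZMod A,
          ‖f z y‖ * ‖f (z + sh A p.1 p.2 a a') y'‖ * ∏ l, Th A N (p.1 * p.2) (y' l - y l) ≤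
      2 ^ r * (2 * (Y : ℝ)) ^ (r + 1) *
        ∑ k ∈ univ.filter (fun k : ZMod A => p.1 ∣ k.val ∧ p.2 ∣ k.val),
          ‖ft A (fun z => (rho A r W z : ℂ)) k‖ ^ 2 := by
    intro p hp
    rw [mem_offDiag] at hp
    obtain ⟨hp1, hp2, _⟩ := hp
    obtain ⟨a1, a2, a3⟩ := hQ _ hp1
    obtain ⟨b1, b2, b3⟩ := hQ _ hp2
    have h3 : 2 * N ≤ p.1 * p.2 := hY1.trans (by rw [sq]; exact Nat.mul_le_mul a2 b2)
    refine (off_le A r hbig N hN1' W f hf hfW p.1 p.2 a1.pos b1.pos (hQA _ hp1) (hQA _ hp2)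
      h3).trans ?_
    apply mul_le_mul_of_nonneg_right _ (sum_nonneg fun _ _ => sq_nonneg _)
    apply mul_le_mul_of_nonneg_left _ (by positivity)
    apply pow_le_pow_left₀ (Real.sqrt_nonneg _)
    rw [Real.sqrt_le_iff]
    refine ⟨by positivity, ?_⟩
    have h4 : (p.1 : ℝ) ≤ 2 * Y := by exact_mod_cast a3
    have h5 : (p.2 : ℝ) ≤ 2 * Y := by exact_mod_cast b3
    rw [sq]
    exact mul_le_mul h4 h5 (Nat.cast_nonneg _) (by positivity)
  -- density function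
  have htv : tv A (fun z => (rho A r W z : ℂ)) ≤ ((A / l + 1 : ℕ) : ℝ) := by
    apply tv_block A l
    · intro z z' h
      congr 1
      unfold rho
      congr 1
      refine sum_congr rfl fun y _ => ?_
      have h3 := sat_block A r (W0 := W0) (y := y) h
      rw [hW]
      by_cases h4 : (z, y) ∈ sat A r l W0
      · rw [if_pos h4, if_pos (h3.mp h4)]
      · rw [if_neg h4, if_neg (fun h5 => h4 (h3.mpr h5))]
    · intro z z'
      rw [← Complex.ofReal_sub, Complex.norm_real, Real.norm_eq_abs, abs_le]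
      have h3 := rho_nonneg A r W z
      have h4 := rho_nonneg A r W z'
      have h5 := rho_le_one A r W z
      have h6 := rho_le_one A r W z'
      constructor <;> linarith
  have hpair := Stz.Md.pair_sum A hft N (4 * r + 30) hN1' Q Y hQ' hQA hYN (rho A r W)
    ((A / l + 1 : ℕ) : ℝ) htv
  have hrho2 := rho2_le A r I N a W lam G (by linarith) hWF hG
  -- assembly
  have hoffsum : 4 / (Q.card : ℝ) ^ 2 * ∑ p ∈ Q.offDiag, ((Real.sqrt (p.1 * p.2))⁻¹) ^ (r + 1) *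
      ∑ a ∈ range p.1, ∑ a' ∈ range p.2, (A : ℝ)⁻¹ * ∑ z : ZMod A, ((A : ℝ)⁻¹) ^ (2 * r) *
        ∑ y : Fin r → ZMod A, ∑ y' : Fin r → ZMod A,
          ‖f z y‖ * ‖f (z + sh A p.1 p.2 a a') y'‖ * ∏ l, Th A N (p.1 * p.2) (y' l - y l) ≤
      4 / (Q.card : ℝ) ^ 2 * (2 ^ r * (2 * (Y : ℝ)) ^ (r + 1) * ((Q.card : ℝ) ^ 2 * μ ^ 2 +
        (2 * (4 * r + 30 : ℕ) : ℝ) ^ 2 * (16 * ((lam ^ 4)⁻¹ * G)) +
        (Q.card : ℝ) ^ 2 * ((((A / l + 1 : ℕ) : ℝ)) ^ 2 /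
          (4 * (((N + 1 : ℕ) : ℝ) ^ (4 * r + 30) + 1))))) := by
    apply mul_le_mul_of_nonneg_left _ (by positivity)
    refine (sum_le_sum hoff).trans ?_
    rw [← mul_sum]
    apply mul_le_mul_of_nonneg_left _ (by positivity)
    refine hpair.trans ?_
    rw [sum_rho]
    apply add_le_add _ le_rfl
    apply add_le_add le_rfl
    exact mul_le_mul_of_nonneg_left hrho2 (sq_nonneg _)
  have hdiag' : 2 ^ (r + 2) / (Q.card : ℝ) *
      (((A : ℝ)⁻¹) ^ (r + 1) * ∑ z, ∑ y, ‖f z y‖ ^ 2) ≤ 2 ^ (r + 2) / (Q.card : ℝ) * μ :=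
    mul_le_mul_of_nonneg_left hdiag (by positivity)
  have hQN : Q.card ≤ N := by
    have h1 : Q ⊆ Icc 1 N := by
      intro q hq
      obtain ⟨h2, h3, h4⟩ := hQ q hq
      rw [mem_Icc]
      omega
    have h2 := card_le_card h1
    rwa [Nat.card_Icc, Nat.add_sub_cancel] at h2
  have hV : ((A / l + 1 : ℕ) : ℝ) ≤ 3 * ((N + 1 : ℕ) : ℝ) ^ (r + 12) := by
    have h1 : A / l + 1 ≤ 3 * L := by omega
    have h2 : ((A / l + 1 : ℕ) : ℝ) ≤ ((3 * L : ℕ) : ℝ) := by exact_mod_cast h1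
    refine h2.trans (le_of_eq ?_)
    rw [hL]
    push_cast
    rfl
  have htiny := tiny_le r N Q.card hN1' hQN lam _ hlamN (Nat.cast_nonneg _) hV
  have hEn2 := hEn.trans (hS.trans (add_le_add hdiag' hoffsum))
  exact algebra_end r lam μ Q.card (2 ^ r * (2 * (Y : ℝ)) ^ (r + 1)) (4 * r + 30 : ℕ) G
    ((A / l + 1 : ℕ) : ℝ) (((N + 1 : ℕ) : ℝ) ^ (4 * r + 30) + 1) (by linarith) hQpos
    (by positivity) hG0 (Nat.cast_nonneg _) hμ0 hEn2 hY2 htiny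

end Stx.Md
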