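import Pool.Agent.Helper65.Stx.Basic
import Pool.Agent.Helper66.Stz.L4

/-!
# Fourth moment in time of the space mass, `r` space variables
-/

set_option autoImplicit false

namespace Stx

open Finset Stz

theorem L4 (r : ℕ) : ∀ ε : ℝ, 0 < ε → ∃ C : ℝ, 0 < C ∧ ∀ (N b A : ℕ) [NeZero A], 1 ≤ N →
    (b : ℝ) ≤ (N : ℝ) ^ 2 → 16 * (b + N) ^ 2 < A → ∀ a : ℕ → (Fin r → ℕ) → ℂ,
    (A : ℝ)⁻¹ * ∑ z : ZMod A,
      (((A : ℝ)⁻¹) ^ r * ∑ y, ‖F A r (Icc (b + 1) (b + N)) N a z y‖ ^ 2) ^ 2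
      ≤ C * (N : ℝ) ^ ε * nsq r (Icc (b + 1) (b + N)) N a ^ 2 := by
  intro ε hε
  obtain ⟨C, hC, h⟩ := four1 ε hε
  refine ⟨C, hC, fun N b A _ hN hb hA a => ?_⟩
  have hNA : N ≤ A := by
    have : b + N ≤ (b + N) ^ 2 := Nat.le_self_pow (by norm_num) _
    omega
  have hApos : (0 : ℝ) ≤ (A : ℝ)⁻¹ := by positivity
  set I := Icc (b + 1) (b + N) with hI
  set Gm : (Fin r → ℕ) → ZMod A → ℝ :=
    fun m z => ‖∑ n ∈ I, a n m * ps A (((n ^ 2 : ℕ) : ZMod A) * z)‖ ^ 2 with hG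
  have h1 : ∀ z : ZMod A, ((A : ℝ)⁻¹) ^ r * ∑ y, ‖F A r I N a z y‖ ^ 2 =
      ∑ m ∈ IJ r N, Gm m z := fun z => l2y A r N hNA I a z
  simp only [h1]
  have hs : ∀ m, (A : ℝ)⁻¹ * ∑ z : ZMod A, (Gm m z) ^ 2 ≤
      C * (N : ℝ) ^ ε * (∑ n ∈ I, ‖a n m‖ ^ 2) ^ 2 := by
    intro m
    have := h N b A hN hb hA (fun n => a n m)
    refine le_trans (le_of_eq ?_) this
    congr 1
    refine sum_congr rfl fun z _ => ?_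
    rw [hG]
    simp only
    rw [← pow_mul]
  have hcross : ∀ m m', (A : ℝ)⁻¹ * ∑ z : ZMod A, Gm m z * Gm m' z ≤
      C * (N : ℝ) ^ ε * ((∑ n ∈ I, ‖a n m‖ ^ 2) * ∑ n ∈ I, ‖a n m'‖ ^ 2) := by
    intro m m'
    have e1 := sum_mul_sq_le_sq_mul_sq univ (Gm m) (Gm m')
    have e2 : ((A : ℝ)⁻¹ * ∑ z : ZMod A, Gm m z * Gm m' z) ^ 2 ≤
        (C * (N : ℝ) ^ ε * ((∑ n ∈ I, ‖a n m‖ ^ 2) * ∑ n ∈ I, ‖a n m'‖ ^ 2)) ^ 2 := by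
      calc ((A : ℝ)⁻¹ * ∑ z : ZMod A, Gm m z * Gm m' z) ^ 2
          = (A : ℝ)⁻¹ ^ 2 * (∑ z : ZMod A, Gm m z * Gm m' z) ^ 2 := by ring
        _ ≤ (A : ℝ)⁻¹ ^ 2 * ((∑ z : ZMod A, Gm m z ^ 2) * ∑ z : ZMod A, Gm m' z ^ 2) :=
            mul_le_mul_of_nonneg_left e1 (by positivity)
        _ = ((A : ℝ)⁻¹ * ∑ z : ZMod A, Gm m z ^ 2) * ((A : ℝ)⁻¹ * ∑ z : ZMod A, Gm m' z ^ 2) := by
            ring
        _ ≤ (C * (N : ℝ) ^ ε * (∑ n ∈ I, ‖a n m‖ ^ 2) ^ 2) *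
            (C * (N : ℝ) ^ ε * (∑ n ∈ I, ‖a n m'‖ ^ 2) ^ 2) := by
            refine mul_le_mul (hs m) (hs m') ?_ ?_
            · exact mul_nonneg hApos (sum_nonneg fun z _ => sq_nonneg _)
            · positivity
        _ = _ := by ring
    exact le_of_abs_le (abs_le_of_sq_le_sq e2 (by positivity))
  calc (A : ℝ)⁻¹ * ∑ z : ZMod A, (∑ m ∈ IJ r N, Gm m z) ^ 2
      = ∑ m ∈ IJ r N, ∑ m' ∈ IJ r N, (A : ℝ)⁻¹ * ∑ z : ZMod A, Gm m z * Gm m' z := by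
        have e : ∀ z : ZMod A, (∑ m ∈ IJ r N, Gm m z) ^ 2 =
            ∑ m ∈ IJ r N, ∑ m' ∈ IJ r N, Gm m z * Gm m' z := by
          intro z
          rw [sq, sum_mul_sum]
        simp only [e]
        rw [sum_comm, mul_sum]
        refine sum_congr rfl fun m _ => ?_
        rw [sum_comm, mul_sum]
    _ ≤ ∑ m ∈ IJ r N, ∑ m' ∈ IJ r N,
          C * (N : ℝ) ^ ε * ((∑ n ∈ I, ‖a n m‖ ^ 2) * ∑ n ∈ I, ‖a n m'‖ ^ 2) :=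
        sum_le_sum fun m _ => sum_le_sum fun m' _ => hcross m m'
    _ = C * (N : ℝ) ^ ε * (∑ m ∈ IJ r N, ∑ n ∈ I, ‖a n m‖ ^ 2) ^ 2 := by
        rw [sq (∑ m ∈ IJ r N, ∑ n ∈ I, ‖a n m‖ ^ 2), sum_mul_sum, mul_sum]
        refine sum_congr rfl fun m _ => ?_
        rw [mul_sum]
    _ = C * (N : ℝ) ^ ε * nsq r I N a ^ 2 := by
        rw [nsq, sum_comm]

end Stx
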