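import Pool.Agent.Helper65.Stx.Basic
import Pool.Agent.Helper65.Stz.Md2

/-!
# Middle levels with `r` space variables: the basic inequality

The level set is replaced by its saturation for blocks of length `l` in time, so that its density in space is a
function of bounded variation of time; after the sieve the sum over the shifts is a sum of squares of Fourier
coefficients of the density over the multiples of two primes.
-/

set_option autoImplicit false

namespace Stx.Md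

open Finset Stz

/-- statement of the sieve inequality -/
def S_sieve (r : ℕ) : Prop :=
  ∀ (A N : ℕ) [NeZero A] (_ : 1 ≤ N) (_ : 4 * N < A) (I : Finset ℕ)
    (_ : ∀ n ∈ I, 1 ≤ n ∧ n ^ 2 < A)
    (Q : Finset ℕ) (_ : ∀ q ∈ Q, q.Prime ∧ q ≠ 2 ∧ q ∣ A) (_ : Q.Nonempty)
    (_ : ∀ n ∈ I, 2 * (Q.filter fun q => q ∣ n).card ≤ Q.card)
    (f : ZMod A → (Fin r → ZMod A) → ℂ),
    En A r I N f ≤ 2 ^ (r + 2) / Q.card * (((A : ℝ)⁻¹) ^ (r + 1) * ∑ z, ∑ y, ‖f z y‖ ^ 2)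
      + 4 / (Q.card : ℝ) ^ 2 * ∑ p ∈ Q.offDiag, ((Real.sqrt (p.1 * p.2))⁻¹) ^ (r + 1) *
        ∑ a ∈ range p.1, ∑ a' ∈ range p.2, (A : ℝ)⁻¹ * ∑ z : ZMod A, ((A : ℝ)⁻¹) ^ (2 * r) *
          ∑ y : Fin r → ZMod A, ∑ y' : Fin r → ZMod A,
            ‖f z y‖ * ‖f (z + sh A p.1 p.2 a a') y'‖ *
              ∏ l, Th A N (p.1 * p.2) (y' l - y l)

section

variable (A r : ℕ) [NeZero A]

theorem sum_norm_le (I : Finset ℕ) (N : ℕ) (hI : I.card ≤ N) (a : ℕ → (Fin r → ℕ) → ℂ)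
    (ha : nsq r I N a ≤ 1) : ∑ n ∈ I, ∑ m ∈ IJ r N, ‖a n m‖ ≤ Real.sqrt ((N : ℝ) ^ (r + 1)) := by
  have h1 := sum_mul_sq_le_sq_mul_sq (I ×ˢ IJ r N) (fun x => ‖a x.1 x.2‖) (fun _ => (1 : ℝ))
  simp only [mul_one, one_pow, sum_const, nsmul_eq_mul, card_product] at h1
  have h2 : ∑ x ∈ I ×ˢ IJ r N, ‖a x.1 x.2‖ ^ 2 = nsq r I N a := sum_product _ _ _
  have h3 : ∑ x ∈ I ×ˢ IJ r N, ‖a x.1 x.2‖ = ∑ n ∈ I, ∑ m ∈ IJ r N, ‖a n m‖ :=
    sum_product _ _ _
  rw [h2, h3] at h1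
  have hc : (IJ r N).card = N ^ r := by
    rw [Fintype.card_piFinset_const, card_range]
  have h4 : nsq r I N a * ((I.card * (IJ r N).card : ℕ) : ℝ) ≤ (N : ℝ) ^ (r + 1) := by
    have h5 : ((I.card * (IJ r N).card : ℕ) : ℝ) ≤ (N : ℝ) ^ (r + 1) := by
      rw [hc]
      push_cast
      rw [pow_succ']
      apply mul_le_mul_of_nonneg_right _ (by positivity)
      exact_mod_cast hI
    calc nsq r I N a * ((I.card * (IJ r N).card : ℕ) : ℝ) ≤ 1 * (N : ℝ) ^ (r + 1) :=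
          mul_le_mul ha h5 (Nat.cast_nonneg _) zero_le_one
      _ = _ := one_mul _
  exact Real.le_sqrt_of_sq_le (h1.trans h4)

theorem norm_F_le (I : Finset ℕ) (N : ℕ) (hI : I.card ≤ N) (a : ℕ → (Fin r → ℕ) → ℂ)
    (ha : nsq r I N a ≤ 1) (z : ZMod A) (y : Fin r → ZMod A) :
    ‖F A r I N a z y‖ ≤ Real.sqrt ((N : ℝ) ^ (r + 1)) := by
  refine le_trans ?_ (sum_norm_le r I N hI a ha)
  unfold F
  refine (norm_sum_le _ _).trans (sum_le_sum fun n _ => ?_)
  refine (norm_sum_le _ _).trans (sum_le_sum fun m _ => ?_)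
  rw [norm_mul, norm_ps, mul_one]

theorem lip (I : Finset ℕ) (N : ℕ) (hI : I.card ≤ N) (a : ℕ → (Fin r → ℕ) → ℂ)
    (ha : nsq r I N a ≤ 1) (R : ℝ) (hR0 : 0 ≤ R)
    (hR : ∀ n ∈ I, ∀ m ∈ IJ r N, ((n ^ 2 + ∑ l, m l ^ 2 : ℕ) : ℝ) ≤ R) (z z' : ZMod A)
    (y : Fin r → ZMod A) (j : ℤ) (hj : z = z' + (j : ZMod A)) :
    ‖F A r I N a z y - F A r I N a z' y‖ ≤
      Real.sqrt ((N : ℝ) ^ (r + 1)) * (2 * Real.pi * (R * |(j : ℝ)|) / A) := by
  have h0 : (0 : ℝ) < A := Nat.cast_pos.mpr (Nat.pos_of_ne_zero (NeZero.ne A))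
  have hterm : ∀ n ∈ I, ∀ m ∈ IJ r N,
      ‖a n m * ps A (((n ^ 2 + ∑ l, m l ^ 2 : ℕ) : ZMod A) * z + ∑ l, (m l : ZMod A) * y l) -
        a n m * ps A (((n ^ 2 + ∑ l, m l ^ 2 : ℕ) : ZMod A) * z' + ∑ l, (m l : ZMod A) * y l)‖ ≤
      ‖a n m‖ * (2 * Real.pi * (R * |(j : ℝ)|) / A) := by
    intro n hn m hm
    have h1 : ps A (((n ^ 2 + ∑ l, m l ^ 2 : ℕ) : ZMod A) * z + ∑ l, (m l : ZMod A) * y l) =
        ps A (((n ^ 2 + ∑ l, m l ^ 2 : ℕ) : ZMod A) * z' + ∑ l, (m l : ZMod A) * y l) *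
          ps A (((((n ^ 2 + ∑ l, m l ^ 2 : ℕ) : ℤ) * j : ℤ)) : ZMod A) := by
      rw [← ps_add, hj]
      congr 1
      push_cast
      ring
    rw [h1, ← mul_sub, norm_mul, ← mul_sub_one, norm_mul, norm_ps, one_mul]
    apply mul_le_mul_of_nonneg_left _ (norm_nonneg _)
    refine (Stz.Md.ps_int_sub_one A _).trans ?_
    rw [Int.cast_mul, abs_mul]
    have h2 : |(((n ^ 2 + ∑ l, m l ^ 2 : ℕ) : ℤ) : ℝ)| ≤ R := by
      rw [Int.cast_natCast, Nat.abs_cast]
      exact hR n hn m hm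
    apply div_le_div_of_nonneg_right _ h0.le
    apply mul_le_mul_of_nonneg_left _ (by positivity)
    exact mul_le_mul_of_nonneg_right h2 (abs_nonneg _)
  calc ‖F A r I N a z y - F A r I N a z' y‖
      ≤ ∑ n ∈ I, ∑ m ∈ IJ r N, ‖a n m‖ * (2 * Real.pi * (R * |(j : ℝ)|) / A) := by
        unfold F
        rw [← sum_sub_distrib]
        refine (norm_sum_le _ _).trans (sum_le_sum fun n hn => ?_)
        rw [← sum_sub_distrib]
        exact (norm_sum_le _ _).trans (sum_le_sum fun m hm => hterm n hn m hm)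
    _ = (∑ n ∈ I, ∑ m ∈ IJ r N, ‖a n m‖) * (2 * Real.pi * (R * |(j : ℝ)|) / A) := by
        rw [sum_mul]
        exact sum_congr rfl fun n _ => (sum_mul _ _ _).symm
    _ ≤ _ := by
        apply mul_le_mul_of_nonneg_right (sum_norm_le r I N hI a ha)
        positivity

/-! ## Blocks -/

/-- saturation of a set with respect to the blocks of length `l` in the time variable -/
def sat (l : ℕ) (W0 : Finset (ZMod A × (Fin r → ZMod A))) : Finset (ZMod A × (Fin r → ZMod A)) := by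
  classical
  exact univ.filter fun w => ∃ z' : ZMod A, z'.val / l = w.1.val / l ∧ (z', w.2) ∈ W0

theorem mem_sat {l : ℕ} {W0 : Finset (ZMod A × (Fin r → ZMod A))} {w : ZMod A × (Fin r → ZMod A)} :
    w ∈ sat A r l W0 ↔ ∃ z' : ZMod A, z'.val / l = w.1.val / l ∧ (z', w.2) ∈ W0 := by
  unfold sat
  rw [mem_filter]
  simp

theorem sat_block {l : ℕ} {W0 : Finset (ZMod A × (Fin r → ZMod A))} {z z' : ZMod A}
    {y : Fin r → ZMod A} (h : z.val / l = z'.val / l) :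
    (z, y) ∈ sat A r l W0 ↔ (z', y) ∈ sat A r l W0 := by
  rw [mem_sat, mem_sat]
  simp only [h]

open scoped Classical in
/-- density of the fibre over `z` -/
noncomputable def rho (W : Finset (ZMod A × (Fin r → ZMod A))) (z : ZMod A) : ℝ :=
  ((A : ℝ)⁻¹) ^ r * ∑ y : Fin r → ZMod A, if (z, y) ∈ W then 1 else 0

theorem rho_nonneg (W : Finset (ZMod A × (Fin r → ZMod A))) (z : ZMod A) : 0 ≤ rho A r W z := by
  unfold rho
  apply mul_nonneg (by positivity)
  apply sum_nonneg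
  intro y _
  split_ifs <;> norm_num

theorem rho_le_one (W : Finset (ZMod A × (Fin r → ZMod A))) (z : ZMod A) : rho A r W z ≤ 1 := by
  classical
  have h0 : (0 : ℝ) < A := Nat.cast_pos.mpr (Nat.pos_of_ne_zero (NeZero.ne A))
  unfold rho
  have h1 : ∑ y : Fin r → ZMod A, (if (z, y) ∈ W then (1 : ℝ) else 0) ≤
      ∑ _y : Fin r → ZMod A, (1 : ℝ) := by
    apply sum_le_sum
    intro y _
    split_ifs <;> norm_num
  rw [sum_const, card_univ, Fintype.card_fun, ZMod.card, Fintype.card_fin, nsmul_eq_mul, mul_one] at h1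
  calc ((A : ℝ)⁻¹) ^ r * ∑ y : Fin r → ZMod A, (if (z, y) ∈ W then (1 : ℝ) else 0) ≤
        ((A : ℝ)⁻¹) ^ r * ((A ^ r : ℕ) : ℝ) := mul_le_mul_of_nonneg_left h1 (by positivity)
    _ = 1 := by
      rw [Nat.cast_pow, ← mul_pow, inv_mul_cancel₀ h0.ne', one_pow]

theorem sum_rho (W : Finset (ZMod A × (Fin r → ZMod A))) :
    (A : ℝ)⁻¹ * ∑ z, rho A r W z = mu A r W := by
  classical
  have h0 : (0 : ℝ) < A := Nat.cast_pos.mpr (Nat.pos_of_ne_zero (NeZero.ne A))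
  unfold rho mu
  rw [← mul_sum, ← mul_assoc, ← pow_succ', ← sum_product', univ_product_univ]
  have h1 : ∑ w : ZMod A × (Fin r → ZMod A), (if (w.1, w.2) ∈ W then (1 : ℝ) else 0) = W.card := by
    simp only [Prod.mk.eta]
    rw [sum_ite_mem, univ_inter, sum_const, nsmul_eq_mul, mul_one]
  rw [h1, inv_pow]
  field_simp

omit [NeZero A] in
theorem mu_mono {W W' : Finset (ZMod A × (Fin r → ZMod A))} (h : W ⊆ W') : mu A r W ≤ mu A r W' := by
  unfold mu
  apply div_le_div_of_nonneg_right _ (by positivity)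
  exact_mod_cast card_le_card h

theorem mu_le_one (W : Finset (ZMod A × (Fin r → ZMod A))) : mu A r W ≤ 1 := by
  have h0 : (0 : ℝ) < A := Nat.cast_pos.mpr (Nat.pos_of_ne_zero (NeZero.ne A))
  have h1 := card_le_univ W
  rw [Fintype.card_prod, Fintype.card_fun, ZMod.card, Fintype.card_fin] at h1
  unfold mu
  rw [div_le_one (by positivity), pow_succ']
  exact_mod_cast h1

theorem count_bdry (l : ℕ) : (univ.filter fun z : ZMod A => l ∣ z.val + 1).card ≤ A / l := by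
  classical
  have h1 : (univ.filter fun z : ZMod A => l ∣ z.val + 1).card =
      ((univ.filter fun z : ZMod A => l ∣ z.val + 1).image ZMod.val).card :=
    (card_image_of_injective _ (ZMod.val_injective A)).symm
  rw [h1]
  have h2 : (univ.filter fun z : ZMod A => l ∣ z.val + 1).image ZMod.val ⊆
      (range A).filter fun e => l ∣ e + 1 := by
    intro e he
    rw [mem_image] at he
    obtain ⟨z, hz, rfl⟩ := he
    rw [mem_filter] at hz ⊢
    exact ⟨mem_range.mpr (ZMod.val_lt z), hz.2⟩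
  refine (card_le_card h2).trans ?_
  rw [Nat.card_multiples]

theorem tv_block (l : ℕ) (f : ZMod A → ℂ)
    (hf : ∀ z z' : ZMod A, z.val / l = z'.val / l → f z = f z') (h1 : ∀ z z', ‖f z - f z'‖ ≤ 1) :
    tv A f ≤ ((A / l + 1 : ℕ) : ℝ) := by
  classical
  unfold tv
  have h2 : ∀ z : ZMod A, ‖f (z + 1) - f z‖ ≤
      (if l ∣ z.val + 1 then 1 else 0) + if z = ((A - 1 : ℕ) : ZMod A) then 1 else 0 := by
    intro z
    have hn : ∀ p : Prop, ∀ _ : Decidable p, (0 : ℝ) ≤ if p then 1 else 0 := by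
      intro p _
      split_ifs <;> norm_num
    by_cases h : l ∣ z.val + 1
    · rw [if_pos h]
      have := hn (z = ((A - 1 : ℕ) : ZMod A)) inferInstance
      linarith [h1 (z + 1) z]
    · rw [if_neg h]
      by_cases h3 : z.val + 1 = A
      · have h4 : z = ((A - 1 : ℕ) : ZMod A) := by
          have h5 : A - 1 = z.val := by omega
          rw [h5, ZMod.natCast_zmod_val]
        rw [if_pos h4]
        linarith [h1 (z + 1) z]
      · have h4 : z.val + 1 < A := lt_of_le_of_ne (ZMod.val_lt z) h3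
        have h5 : (z + 1).val = z.val + 1 := by
          have h6 : z + 1 = ((z.val + 1 : ℕ) : ZMod A) := by
            rw [Nat.cast_add, ZMod.natCast_zmod_val, Nat.cast_one]
          rw [h6, ZMod.val_natCast, Nat.mod_eq_of_lt h4]
        have h7 : f (z + 1) = f z := by
          apply hf
          rw [h5]
          exact Nat.succ_div_of_not_dvd h
        rw [h7, sub_self, norm_zero]
        have := hn (z = ((A - 1 : ℕ) : ZMod A)) inferInstance
        linarith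
  refine (sum_le_sum fun z _ => h2 z).trans ?_
  rw [sum_add_distrib, ← sum_filter, sum_const, nsmul_eq_mul, mul_one,
    sum_ite_eq' univ (((A - 1 : ℕ) : ZMod A)), if_pos (mem_univ _)]
  push_cast
  apply add_le_add _ le_rfl
  exact_mod_cast count_bdry A l

/-- diagonal term -/
theorem diag_le (W : Finset (ZMod A × (Fin r → ZMod A))) (f : ZMod A → (Fin r → ZMod A) → ℂ)
    (hf : ∀ z y, ‖f z y‖ ≤ 1) (hfW : ∀ z y, (z, y) ∉ W → f z y = 0) :
    ((A : ℝ)⁻¹) ^ (r + 1) * ∑ z, ∑ y, ‖f z y‖ ^ 2 ≤ mu A r W := by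
  classical
  rw [← sum_rho, pow_succ', mul_assoc, mul_sum]
  apply mul_le_mul_of_nonneg_left _ (by positivity)
  apply sum_le_sum
  intro z _
  unfold rho
  apply mul_le_mul_of_nonneg_left _ (by positivity)
  apply sum_le_sum
  intro y _
  by_cases h4 : (z, y) ∈ W
  · rw [if_pos h4]
    exact pow_le_one₀ (norm_nonneg _) (hf z y)
  · rw [if_neg h4, hfW z y h4]
    simp

/-- off-diagonal term for one pair -/
theorem off_le (hbig : Stz.Md.S_big) (N : ℕ) (hN : 1 ≤ N) (W : Finset (ZMod A × (Fin r → ZMod A)))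
    (f : ZMod A → (Fin r → ZMod A) → ℂ) (hf : ∀ z y, ‖f z y‖ ≤ 1)
    (hfW : ∀ z y, (z, y) ∉ W → f z y = 0)
    (q q' : ℕ) (hq : 0 < q) (hq' : 0 < q') (hqA : q ∣ A) (hqA' : q' ∣ A) (hqq : 2 * N ≤ q * q') :
    ((Real.sqrt (q * q'))⁻¹) ^ (r + 1) *
      ∑ a ∈ range q, ∑ a' ∈ range q', (A : ℝ)⁻¹ * ∑ z : ZMod A, ((A : ℝ)⁻¹) ^ (2 * r) *
        ∑ y : Fin r → ZMod A, ∑ y' : Fin r → ZMod A,
          ‖f z y‖ * ‖f (z + sh A q q' a a') y'‖ * ∏ l, Th A N (q * q') (y' l - y l) ≤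
    2 ^ r * (Real.sqrt (q * q')) ^ (r + 1) *
      ∑ k ∈ univ.filter (fun k : ZMod A => q ∣ k.val ∧ q' ∣ k.val),
        ‖ft A (fun z => (rho A r W z : ℂ)) k‖ ^ 2 := by
  classical
  have hA0 : (0 : ℝ) < A := Nat.cast_pos.mpr (Nat.pos_of_ne_zero (NeZero.ne A))
  have hqr : (0 : ℝ) < q := by exact_mod_cast hq
  have hqr' : (0 : ℝ) < q' := by exact_mod_cast hq'
  have hd : (0 : ℝ) < (q : ℝ) * q' := by positivity
  set s : ℝ := Real.sqrt (q * q') with hs
  have hs0 : 0 < s := Real.sqrt_pos.mpr hd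
  have hs2 : s ^ 2 = (q : ℝ) * q' := Real.sq_sqrt hd.le
  rw [← Stz.Md.corr A q q' hq hq' hqA hqA' (rho A r W)]
  have hf1 : ∀ z y, ‖f z y‖ ≤ if (z, y) ∈ W then 1 else 0 := by
    intro z y
    by_cases h : (z, y) ∈ W
    · rw [if_pos h]
      exact hf z y
    · rw [if_neg h, hfW z y h, norm_zero]
  have h1 : ∀ z t : ZMod A, ((A : ℝ)⁻¹) ^ (2 * r) * ∑ y : Fin r → ZMod A, ∑ y' : Fin r → ZMod A,
      ‖f z y‖ * ‖f (z + t) y'‖ * ∏ l, Th A N (q * q') (y' l - y l) ≤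
      (2 * ((q : ℝ) * q')) ^ r * (rho A r W z * rho A r W (z + t)) := by
    intro z t
    have h2 : ∀ y y' : Fin r → ZMod A, ‖f z y‖ * ‖f (z + t) y'‖ *
        ∏ l, Th A N (q * q') (y' l - y l) ≤
        (2 * ((q : ℝ) * q')) ^ r * ((if (z, y) ∈ W then 1 else 0) *
          (if (z + t, y') ∈ W then 1 else 0)) := by
      intro y y'
      have h5 : ∏ l, Th A N (q * q') (y' l - y l) = (2 * ((q : ℝ) * q')) ^ r := by
        rw [prod_congr rfl fun l _ => hbig A N (q * q') hN hqq (y' l - y l)]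
        rw [prod_const, card_univ, Fintype.card_fin]
        push_cast
        rfl
      rw [h5]
      have h3 := mul_le_mul (hf1 z y) (hf1 (z + t) y') (norm_nonneg _) (by split_ifs <;> norm_num)
      calc ‖f z y‖ * ‖f (z + t) y'‖ * (2 * ((q : ℝ) * q')) ^ r ≤
            ((if (z, y) ∈ W then 1 else 0) * (if (z + t, y') ∈ W then 1 else 0)) *
              (2 * ((q : ℝ) * q')) ^ r := mul_le_mul_of_nonneg_right h3 (by positivity)
        _ = _ := by ring
    calc ((A : ℝ)⁻¹) ^ (2 * r) * ∑ y : Fin r → ZMod A, ∑ y' : Fin r → ZMod A, ‖f z y‖ *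
          ‖f (z + t) y'‖ * ∏ l, Th A N (q * q') (y' l - y l)
        ≤ ((A : ℝ)⁻¹) ^ (2 * r) * ∑ y : Fin r → ZMod A, ∑ y' : Fin r → ZMod A,
          (2 * ((q : ℝ) * q')) ^ r *
            ((if (z, y) ∈ W then 1 else 0) * (if (z + t, y') ∈ W then 1 else 0)) := by
          apply mul_le_mul_of_nonneg_left _ (by positivity)
          exact sum_le_sum fun y _ => sum_le_sum fun y' _ => h2 y y'
      _ = _ := by
          unfold rho
          simp only [← mul_sum]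
          rw [← sum_mul, mul_comm 2 r, pow_mul]
          ring
  have h3 : ∀ a a' : ℕ, (A : ℝ)⁻¹ * ∑ z : ZMod A, (2 * ((q : ℝ) * q')) ^ r *
      (rho A r W z * rho A r W (z + sh A q q' a a')) =
      (2 * ((q : ℝ) * q')) ^ r * ((A : ℝ)⁻¹ *
        ∑ z : ZMod A, rho A r W z * rho A r W (z + sh A q q' a a')) := by
    intro a a'
    rw [← mul_sum]
    ring
  have h4 : ∑ a ∈ range q, ∑ a' ∈ range q', (A : ℝ)⁻¹ * ∑ z : ZMod A, (2 * ((q : ℝ) * q')) ^ r *
      (rho A r W z * rho A r W (z + sh A q q' a a')) =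
      (2 * ((q : ℝ) * q')) ^ r * ∑ a ∈ range q, ∑ a' ∈ range q', (A : ℝ)⁻¹ *
        ∑ z : ZMod A, rho A r W z * rho A r W (z + sh A q q' a a') := by
    rw [mul_sum]
    refine sum_congr rfl fun a _ => ?_
    rw [mul_sum]
    exact sum_congr rfl fun a' _ => h3 a a'
  calc _ ≤ (s⁻¹) ^ (r + 1) * ∑ a ∈ range q, ∑ a' ∈ range q', (A : ℝ)⁻¹ * ∑ z : ZMod A,
        (2 * ((q : ℝ) * q')) ^ r * (rho A r W z * rho A r W (z + sh A q q' a a')) := by
        apply mul_le_mul_of_nonneg_left _ (by positivity)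
        refine sum_le_sum fun a _ => sum_le_sum fun a' _ => ?_
        apply mul_le_mul_of_nonneg_left _ (by positivity)
        exact sum_le_sum fun z _ => h1 z _
    _ = _ := by
        rw [h4, ← hs2]
        set S : ℝ := ∑ a ∈ range q, ∑ a' ∈ range q', (A : ℝ)⁻¹ *
          ∑ z : ZMod A, rho A r W z * rho A r W (z + sh A q q' a a') with hS
        have h6 : (s⁻¹) ^ (r + 1) * (2 * s ^ 2) ^ r = 2 ^ r * s ^ (r + 1) * (s ^ 2)⁻¹ := by
          rw [mul_pow, inv_pow, ← pow_mul, ← div_eq_mul_inv, inv_mul_eq_div, div_eq_div_iff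
            (by positivity) (by positivity)]
          ring
        rw [← mul_assoc, h6]
        ring

/-- the square function controls the density -/
theorem rho2_le (I : Finset ℕ) (N : ℕ) (a : ℕ → (Fin r → ℕ) → ℂ)
    (W : Finset (ZMod A × (Fin r → ZMod A))) (lam G : ℝ) (hlam : 0 < lam)
    (hWF : ∀ w ∈ W, lam / 2 ≤ ‖F A r I N a w.1 w.2‖)
    (hG : (A : ℝ)⁻¹ * ∑ z : ZMod A,
      (((A : ℝ)⁻¹) ^ r * ∑ y, ‖F A r I N a z y‖ ^ 2) ^ 2 ≤ G) :
    (A : ℝ)⁻¹ * ∑ z, rho A r W z ^ 2 ≤ 16 * ((lam ^ 4)⁻¹ * G) := by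
  classical
  have h3 : ∀ z, rho A r W z ≤ 4 * (lam ^ 2)⁻¹ *
      (((A : ℝ)⁻¹) ^ r * ∑ y, ‖F A r I N a z y‖ ^ 2) := by
    intro z
    unfold rho
    rw [← mul_assoc, mul_comm (4 * (lam ^ 2)⁻¹), mul_assoc]
    apply mul_le_mul_of_nonneg_left _ (by positivity)
    rw [mul_sum]
    apply sum_le_sum
    intro y _
    by_cases h4 : (z, y) ∈ W
    · rw [if_pos h4]
      have h5 := hWF _ h4
      have h6 : (lam / 2) ^ 2 ≤ ‖F A r I N a z y‖ ^ 2 := pow_le_pow_left₀ (by linarith) h5 2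
      have h7 : 4 * (lam ^ 2)⁻¹ * (lam / 2) ^ 2 = 1 := by
        field_simp
        norm_num
      calc (1 : ℝ) = 4 * (lam ^ 2)⁻¹ * (lam / 2) ^ 2 := h7.symm
        _ ≤ _ := mul_le_mul_of_nonneg_left h6 (by positivity)
    · rw [if_neg h4]
      positivity
  calc (A : ℝ)⁻¹ * ∑ z, rho A r W z ^ 2
      ≤ (A : ℝ)⁻¹ * ∑ z : ZMod A, (4 * (lam ^ 2)⁻¹ *
        (((A : ℝ)⁻¹) ^ r * ∑ y, ‖F A r I N a z y‖ ^ 2)) ^ 2 := by
        apply mul_le_mul_of_nonneg_left _ (by positivity)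
        exact sum_le_sum fun z _ => pow_le_pow_left₀ (rho_nonneg A r W z) (h3 z) 2
    _ = 16 * ((lam ^ 4)⁻¹ * ((A : ℝ)⁻¹ * ∑ z : ZMod A,
        (((A : ℝ)⁻¹) ^ r * ∑ y, ‖F A r I N a z y‖ ^ 2) ^ 2)) := by
        simp only [mul_pow _ _ 2]
        rw [← mul_sum]
        field_simp
        ring
    _ ≤ _ := by
        apply mul_le_mul_of_nonneg_left _ (by norm_num)
        exact mul_le_mul_of_nonneg_left hG (by positivity)

end

end Stx.Md
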