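import Pool.Agent.Helper65.Stx.MidOf
import Pool.Agent.Helper65.Stx.L4
import Pool.Agent.Helper35.Stx.Sieve

/-!
# Middle levels with `r` space variables (no hypotheses)
-/

set_option autoImplicit false

namespace Stx

open Finset Stz

theorem mid (r : ℕ) (hr : 1 ≤ r) : ∀ ε : ℝ, 0 < ε → ∃ C : ℝ, 0 < C ∧ ∀ N : ℕ, 1 ≤ N →
    ∀ lam : ℝ, (N : ℝ) ^ (((r : ℝ) + 1) / 4 + ε) ≤ lam →
    LevB r N lam (C * (N : ℝ) ^ ε * lam ^ (-(2 + 2 / ((r : ℝ) + 1)))) :=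
  mid_of r hr (fun A N _ => sieve A r N) (L4 r)

end Stx
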