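import Pool.Agent.Helper65.Stx.Core
import Pool.Agent.Helper65.Stz.Primes
import Pool.Agent.Helper35.Stz.Theta
import Pool.Agent.Helper80.Stz.Four1

/-!
# Middle levels with `r` space variables
-/

set_option autoImplicit false

namespace Stx

open Finset Stz

namespace Md

/-- statement of the fourth moment bound -/
def S_L4 (r : ℕ) : Prop :=
  ∀ ε : ℝ, 0 < ε → ∃ C : ℝ, 0 < C ∧ ∀ (N b A : ℕ) [NeZero A], 1 ≤ N →
    (b : ℝ) ≤ (N : ℝ) ^ 2 → 16 * (b + N) ^ 2 < A → ∀ a : ℕ → (Fin r → ℕ) → ℂ,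
    (A : ℝ)⁻¹ * ∑ z : ZMod A,
      (((A : ℝ)⁻¹) ^ r * ∑ y, ‖F A r (Icc (b + 1) (b + N)) N a z y‖ ^ 2) ^ 2
      ≤ C * (N : ℝ) ^ ε * nsq r (Icc (b + 1) (b + N)) N a ^ 2

/-- logarithms against powers -/
theorem log_sq_le (δ : ℝ) (hδ : 0 < δ) (x : ℝ) (hx : 1 ≤ x) :
    (Real.log x) ^ 2 ≤ 64 / δ ^ 2 * x ^ (δ / 4) := by
  have h1 := Real.log_le_rpow_div (show 0 ≤ x by linarith) (show 0 < δ / 8 by positivity)
  have h2 : 0 ≤ Real.log x := Real.log_nonneg hx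
  have h3 : (x ^ (δ / 8)) ^ 2 = x ^ (δ / 4) := by
    rw [← Real.rpow_natCast, ← Real.rpow_mul (by linarith)]
    congr 1
    push_cast
    ring
  calc (Real.log x) ^ 2 ≤ (x ^ (δ / 8) / (δ / 8)) ^ 2 := pow_le_pow_left₀ h2 h1 2
    _ = 64 / δ ^ 2 * (x ^ (δ / 8)) ^ 2 := by field_simp; ring
    _ = 64 / δ ^ 2 * x ^ (δ / 4) := by rw [h3]

end Md

theorem mid_of (r : ℕ) (hr : 1 ≤ r) (hsieve : Md.S_sieve r) (hL4 : Md.S_L4 r) :
    ∀ ε : ℝ, 0 < ε → ∃ C : ℝ, 0 < C ∧ ∀ N : ℕ, 1 ≤ N →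
    ∀ lam : ℝ, (N : ℝ) ^ (((r : ℝ) + 1) / 4 + ε) ≤ lam →
    LevB r N lam (C * (N : ℝ) ^ ε * lam ^ (-(2 + 2 / ((r : ℝ) + 1)))) := by
  intro ε hε
  obtain ⟨C4, hC4, hL4⟩ := hL4 ε hε
  obtain ⟨c, hc, Y₀, hpr⟩ := prime_supply
  -- constants
  set e : ℝ := (r : ℝ) + 1 with he
  have he0 : 0 < e := by positivity
  have he1 : 1 ≤ e := by
    rw [he]
    linarith [(Nat.cast_nonneg r : (0 : ℝ) ≤ r)]
  have he2 : 2 ≤ e := by
    have : (1 : ℝ) ≤ r := by exact_mod_cast hr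
    rw [he]
    linarith
  set θ : ℝ := 2 / e with hθ
  have hθ0 : 0 < θ := by positivity
  have hθ1 : θ ≤ 1 := by
    rw [hθ, div_le_one he0]
    exact he2
  have heθ : e * θ = 2 := by
    rw [hθ]
    field_simp
  set δ : ℝ := ε * θ with hδ
  have hδ0 : 0 < δ := by positivity
  have hδε : δ ≤ ε := by
    rw [hδ]
    calc ε * θ ≤ ε * 1 := mul_le_mul_of_nonneg_left hθ1 hε.le
      _ = ε := mul_one _
  set C5 : ℝ := 64 / δ ^ 2 with hC5
  have hC5pos : 0 < C5 := by positivity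
  set K : ℝ := 2 ^ (r + 5) + (8 * (4 * r + 30 : ℕ) * Real.sqrt C4 + 1) with hK
  have hKpos : 0 < K := by positivity
  -- large N
  have hlarge : ∃ N₀ : ℕ, ∀ N : ℕ, N₀ ≤ N → r + 1 ≤ N ∧ 320 * C5 / c ≤ (N : ℝ) ^ (3 * δ / 4) ∧
      16 * (|Y₀| + 3) ≤ (N : ℝ) ^ (1 / 2 : ℝ) ∧ (r : ℝ) + 12 ≤ (N : ℝ) ^ (1 / 2 : ℝ) := by
    have h1 : ∀ᶠ N : ℕ in Filter.atTop, r + 1 ≤ N := Filter.eventually_ge_atTop _
    have h2 : ∀ᶠ N : ℕ in Filter.atTop, 320 * C5 / c ≤ (N : ℝ) ^ (3 * δ / 4) :=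
      ((tendsto_rpow_atTop (by positivity)).comp tendsto_natCast_atTop_atTop).eventually_ge_atTop _
    have h3 : ∀ᶠ N : ℕ in Filter.atTop, 16 * (|Y₀| + 3) ≤ (N : ℝ) ^ (1 / 2 : ℝ) :=
      ((tendsto_rpow_atTop (by positivity)).comp tendsto_natCast_atTop_atTop).eventually_ge_atTop _
    have h4 : ∀ᶠ N : ℕ in Filter.atTop, (r : ℝ) + 12 ≤ (N : ℝ) ^ (1 / 2 : ℝ) :=
      ((tendsto_rpow_atTop (by positivity)).comp tendsto_natCast_atTop_atTop).eventually_ge_atTop _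
    obtain ⟨N₀, hN₀⟩ := Filter.eventually_atTop.mp (h1.and (h2.and (h3.and h4)))
    exact ⟨N₀, fun N hN => hN₀ N hN⟩
  obtain ⟨N₀, hlarge⟩ := hlarge
  set C : ℝ := max (16 * C5 * K / c) ((N₀ : ℝ) ^ (r + 2) + 1) with hC
  have hCpos : 0 < C := lt_of_lt_of_le (by positivity) (le_max_right _ _)
  refine ⟨C, hCpos, ?_⟩
  intro N hN lam hlam b A _ hb hgood a ha
  have hA0 : (0 : ℝ) < A := Nat.cast_pos.mpr (Nat.pos_of_ne_zero (NeZero.ne A))
  have hN1 : (1 : ℝ) ≤ N := by exact_mod_cast hN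
  have hN0 : (0 : ℝ) < N := by linarith
  have hlam1 : 1 ≤ lam := (Real.one_le_rpow hN1 (by positivity)).trans hlam
  have hlam0 : 0 < lam := by linarith
  have hIc : (Icc (b + 1) (b + N)).card ≤ N := by
    rw [Nat.card_Icc]
    omega
  have hl3 : lam ^ (-(2 + θ)) = (lam ^ 2 * lam ^ θ)⁻¹ := by
    rw [Real.rpow_neg hlam0.le, Real.rpow_add hlam0]
    congr 2
    exact_mod_cast Real.rpow_natCast lam 2
  rw [hl3]
  have hlθ : 0 < lam ^ θ := Real.rpow_pos_of_pos hlam0 _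
  by_cases hlN : lam ^ 2 ≤ (N : ℝ) ^ (r + 1)
  swap
  · -- empty level set
    have h1 : lev A r (Icc (b + 1) (b + N)) N a lam = ∅ := by
      unfold lev
      rw [filter_eq_empty_iff]
      intro w _ h
      have h2 := h.trans (Md.norm_F_le A r _ N hIc a ha w.1 w.2)
      have h3 := (Real.le_sqrt hlam0.le (by positivity)).mp h2
      exact hlN h3
    rw [h1]
    unfold mu
    rw [card_empty, Nat.cast_zero, zero_div]
    positivity
  have hlamN : lam ^ θ ≤ N := by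
    have h1 : lam ≤ (N : ℝ) ^ (e / 2) := by
      have h2 : ((N : ℝ) ^ (e / 2)) ^ 2 = (N : ℝ) ^ (r + 1) := by
        rw [← Real.rpow_natCast, ← Real.rpow_mul hN0.le, ← Real.rpow_natCast]
        congr 1
        rw [he]
        push_cast
        ring
      rw [← h2] at hlN
      exact (pow_le_pow_iff_left₀ hlam0.le (by positivity) two_ne_zero).mp hlN
    calc lam ^ θ ≤ ((N : ℝ) ^ (e / 2)) ^ θ := Real.rpow_le_rpow hlam0.le h1 hθ0.le
      _ = (N : ℝ) ^ (e / 2 * θ) := (Real.rpow_mul hN0.le _ _).symm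
      _ = N := by
        have h3 : e / 2 * θ = 1 := by linarith
        rw [h3, Real.rpow_one]
  by_cases hNN : N₀ ≤ N
  swap
  · -- small N
    have h1 := Md.mu_le_one A r (lev A r (Icc (b + 1) (b + N)) N a lam)
    refine h1.trans ?_
    have h2 : (N : ℝ) ≤ N₀ := by
      have : N ≤ N₀ := by omega
      exact_mod_cast this
    have h3 : lam ^ 2 * lam ^ θ ≤ C := by
      calc lam ^ 2 * lam ^ θ ≤ (N : ℝ) ^ (r + 1) * N := mul_le_mul hlN hlamN hlθ.le (by positivity)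
        _ = (N : ℝ) ^ (r + 2) := (pow_succ _ _).symm
        _ ≤ (N₀ : ℝ) ^ (r + 2) := pow_le_pow_left₀ hN0.le h2 _
        _ ≤ (N₀ : ℝ) ^ (r + 2) + 1 := by linarith
        _ ≤ C := le_max_right _ _
    rw [← div_eq_mul_inv, one_le_div (by positivity)]
    calc lam ^ 2 * lam ^ θ ≤ C := h3
      _ = C * 1 := (mul_one _).symm
      _ ≤ C * (N : ℝ) ^ ε :=
          mul_le_mul_of_nonneg_left (Real.one_le_rpow hN1 hε.le) hCpos.le
  obtain ⟨hNr, hbig, hY0, hNr'⟩ := hlarge N hNN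
  set Y : ℝ := lam ^ θ / 16 with hY
  have hlow0 : (N : ℝ) ^ (1 / 2 + δ) ≤ lam ^ θ := by
    calc (N : ℝ) ^ (1 / 2 + δ) = (N : ℝ) ^ ((e / 4 + ε) * θ) := by
          congr 1
          rw [hδ]
          linarith
      _ = ((N : ℝ) ^ (e / 4 + ε)) ^ θ := Real.rpow_mul hN0.le _ _
      _ ≤ lam ^ θ := Real.rpow_le_rpow (by positivity) hlam hθ0.le
  have hhalf : (N : ℝ) ^ (1 / 2 : ℝ) ≤ lam ^ θ := by
    refine le_trans ?_ hlow0
    exact Real.rpow_le_rpow_of_exponent_le hN1 (by linarith)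
  have hY3 : |Y₀| + 3 ≤ Y := by
    rw [hY, le_div_iff₀ (by norm_num)]
    linarith
  have hYY : Y₀ ≤ Y := by linarith [le_abs_self Y₀]
  have hY3' : 3 ≤ Y := by linarith [abs_nonneg Y₀]
  obtain ⟨Y', Q, hY'1, hY'2, hQ, hQc⟩ := hpr Y hYY
  -- logarithm
  have hlogY : 1 ≤ Real.log Y := by
    rw [Real.le_log_iff_exp_le (by linarith)]
    have := Real.exp_one_lt_d9
    linarith
  have hYN : Y ≤ N := by
    rw [hY]
    linarith
  have hlogN : (Real.log Y) ^ 2 ≤ C5 * (N : ℝ) ^ (δ / 4) := by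
    refine le_trans ?_ (Md.log_sq_le δ hδ0 N hN1)
    exact pow_le_pow_left₀ (by linarith) (Real.log_le_log (by linarith) hYN) 2
  have hlogpos : 0 < (Real.log Y) ^ 2 := by positivity
  set g : ℝ := C5 * (N : ℝ) ^ (δ / 4) with hg
  have hgpos : 0 < g := by positivity
  have hlow : c * Y / g ≤ c * Y / (Real.log Y) ^ 2 :=
    div_le_div_of_nonneg_left (by positivity) hlogpos hlogN
  have hB : 20 * (N : ℝ) ^ (1 / 2 : ℝ) ≤ c * Y / g := by
    rw [le_div_iff₀ hgpos, hg, hY]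
    have h1 : (N : ℝ) ^ (1 / 2 + δ) = (N : ℝ) ^ (1 / 2 : ℝ) * ((N : ℝ) ^ (3 * δ / 4) *
        (N : ℝ) ^ (δ / 4)) := by
      rw [← Real.rpow_add hN0, ← Real.rpow_add hN0]
      congr 1
      ring
    have h2 : 320 * C5 ≤ c * (N : ℝ) ^ (3 * δ / 4) := by
      rw [div_le_iff₀ hc] at hbig
      linarith
    calc 20 * (N : ℝ) ^ (1 / 2 : ℝ) * (C5 * (N : ℝ) ^ (δ / 4))
        = (320 * C5) * ((N : ℝ) ^ (1 / 2 : ℝ) * (N : ℝ) ^ (δ / 4)) / 16 := by ring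
      _ ≤ (c * (N : ℝ) ^ (3 * δ / 4)) * ((N : ℝ) ^ (1 / 2 : ℝ) * (N : ℝ) ^ (δ / 4)) / 16 := by
          apply div_le_div_of_nonneg_right _ (by norm_num)
          exact mul_le_mul_of_nonneg_right h2 (by positivity)
      _ = c * ((N : ℝ) ^ (1 / 2 + δ) / 16) := by rw [h1]; ring
      _ ≤ c * (lam ^ θ / 16) := by
          apply mul_le_mul_of_nonneg_left _ hc.le
          exact div_le_div_of_nonneg_right hlow0 (by norm_num)
  have hsq : ((N : ℝ) ^ (1 / 2 : ℝ)) ^ 2 = N := by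
    rw [← Real.rpow_natCast, ← Real.rpow_mul hN0.le]
    norm_num
  have hr0 : (0 : ℝ) ≤ r := Nat.cast_nonneg r
  have hYbig : 20 * (N : ℝ) ^ (1 / 2 : ℝ) ≤ Y' := hB.trans (hlow.trans hY'1)
  have hQbig : 20 * (N : ℝ) ^ (1 / 2 : ℝ) ≤ Q.card := hB.trans (hlow.trans hQc)
  have hY1 : 2 * N ≤ Y' ^ 2 := by
    have h1 : (20 * (N : ℝ) ^ (1 / 2 : ℝ)) ^ 2 ≤ (Y' : ℝ) ^ 2 :=
      pow_le_pow_left₀ (by positivity) hYbig 2
    rw [mul_pow, hsq] at h1
    have h2 : (2 * N : ℝ) ≤ (Y' : ℝ) ^ 2 := by linarith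
    exact_mod_cast h2
  have hY3n : 3 ≤ Y' := by
    have h1 : (3 : ℝ) ≤ Y' := by linarith
    exact_mod_cast h1
  have hQ8 : 8 ≤ Q.card := by
    have h1 : (8 : ℝ) ≤ Q.card := by linarith
    exact_mod_cast h1
  have hQr : 2 * (r + 12) ≤ Q.card := by
    have h1 : (2 * ((r : ℝ) + 12)) ≤ Q.card := by linarith
    exact_mod_cast h1
  have hY'N : 2 * Y' ≤ N := by
    have h1 : (2 * Y' : ℝ) ≤ N := hY'2.trans hYN
    exact_mod_cast h1
  have hY2 : 32 * (2 ^ r * (2 * (Y' : ℝ)) ^ (r + 1)) ≤ lam ^ 2 := by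
    have h1 : (2 * (Y' : ℝ)) ^ (r + 1) ≤ Y ^ (r + 1) := pow_le_pow_left₀ (by positivity) hY'2 _
    have h2 : Y ^ (r + 1) = lam ^ 2 / 16 ^ (r + 1) := by
      rw [hY, div_pow]
      congr 1
      rw [← Real.rpow_natCast, ← Real.rpow_mul hlam0.le, ← Real.rpow_natCast]
      congr 1
      push_cast
      rw [← he]
      linarith
    have h3 : (32 * 2 ^ r : ℝ) ≤ 16 ^ (r + 1) := by
      have h4 : (2 : ℝ) ^ r * 2 ≤ 2 ^ r * 8 ^ r := by
        apply mul_le_mul_of_nonneg_left _ (by positivity)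
        calc (2 : ℝ) ≤ 8 ^ 1 := by norm_num
          _ ≤ 8 ^ r := pow_le_pow_right₀ (by norm_num) hr
      have h5 : (16 : ℝ) ^ (r + 1) = 16 * (2 ^ r * 8 ^ r) := by
        rw [pow_succ, ← mul_pow]
        norm_num
        ring
      rw [h5]
      linarith
    calc 32 * (2 ^ r * (2 * (Y' : ℝ)) ^ (r + 1)) ≤ 32 * (2 ^ r * Y ^ (r + 1)) := by
          apply mul_le_mul_of_nonneg_left _ (by norm_num)
          exact mul_le_mul_of_nonneg_left h1 (by positivity)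
      _ = (32 * 2 ^ r) / 16 ^ (r + 1) * lam ^ 2 := by
          rw [h2]
          ring
      _ ≤ 1 * lam ^ 2 := by
          apply mul_le_mul_of_nonneg_right _ (by positivity)
          rw [div_le_one (by positivity)]
          exact h3
      _ = lam ^ 2 := one_mul _
  -- core inequality
  have hnsq0 : 0 ≤ nsq r (Icc (b + 1) (b + N)) N a :=
    sum_nonneg fun _ _ => sum_nonneg fun _ _ => sq_nonneg _
  have hG : (A : ℝ)⁻¹ * ∑ z : ZMod A,
      (((A : ℝ)⁻¹) ^ r * ∑ y, ‖F A r (Icc (b + 1) (b + N)) N a z y‖ ^ 2) ^ 2 ≤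
      C4 * (N : ℝ) ^ ε := by
    refine (hL4 N b A hN hb (size_ok hN hb hgood) a).trans ?_
    have h6 : nsq r (Icc (b + 1) (b + N)) N a ^ 2 ≤ 1 := pow_le_one₀ hnsq0 ha
    calc C4 * (N : ℝ) ^ ε * nsq r (Icc (b + 1) (b + N)) N a ^ 2
        ≤ C4 * (N : ℝ) ^ ε * 1 := mul_le_mul_of_nonneg_left h6 (by positivity)
      _ = _ := mul_one _
  have hcore := Md.core r hsieve (fun A N d _ hN hd u => Th_big A N d hN hd u)
    (fun A _ f k hk => ft_le_tv A f k hk) A N b hNr hb hgood a ha lam hlam1 hlN Q Y' hQ hY1 hY2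
    hY'N hY3n hQ8 hQr _ (by positivity) hG
  set μ : ℝ := mu A r (lev A r (Icc (b + 1) (b + N)) N a lam) with hμ
  have hμ0 : 0 ≤ μ := by
    rw [hμ]
    unfold mu
    positivity
  have hQpos : (0 : ℝ) < Q.card := by
    have : 0 < Q.card := by omega
    exact_mod_cast this
  have hQg : c * Y / g ≤ Q.card := hlow.trans hQc
  have hsG : Real.sqrt (C4 * (N : ℝ) ^ ε) = Real.sqrt C4 * (N : ℝ) ^ (ε / 2) := by
    rw [Real.sqrt_mul hC4.le]
    congr 1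
    rw [Real.sqrt_eq_rpow, ← Real.rpow_mul hN0.le]
    congr 1
    ring
  have h1 : lam ^ 2 * Q.card * μ ≤ K * (N : ℝ) ^ (ε / 2) := by
    refine hcore.trans ?_
    rw [hsG, hK]
    have h2 : (1 : ℝ) ≤ (N : ℝ) ^ (ε / 2) := Real.one_le_rpow hN1 (by positivity)
    have h3 : (2 : ℝ) ^ (r + 5) * 1 ≤ 2 ^ (r + 5) * (N : ℝ) ^ (ε / 2) :=
      mul_le_mul_of_nonneg_left h2 (by positivity)
    linarith
  have h2 : lam ^ 2 * (c * Y / g) * μ ≤ K * (N : ℝ) ^ (ε / 2) := by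
    refine le_trans ?_ h1
    apply mul_le_mul_of_nonneg_right _ hμ0
    exact mul_le_mul_of_nonneg_left hQg (by positivity)
  have h3 : μ * (lam ^ 2 * lam ^ θ) ≤ 16 * C5 * K / c * ((N : ℝ) ^ (δ / 4) * (N : ℝ) ^ (ε / 2)) := by
    have h4 : lam ^ 2 * (c * Y / g) * μ = μ * (lam ^ 2 * lam ^ θ) * (c / (16 * g)) := by
      rw [hY]
      field_simp
    rw [h4, ← le_div_iff₀ (by positivity)] at h2
    refine h2.trans (le_of_eq ?_)
    rw [hg]
    field_simp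
  have h4 : (N : ℝ) ^ (δ / 4) * (N : ℝ) ^ (ε / 2) ≤ (N : ℝ) ^ ε := by
    rw [← Real.rpow_add hN0]
    exact Real.rpow_le_rpow_of_exponent_le hN1 (by linarith)
  have h5 : μ * (lam ^ 2 * lam ^ θ) ≤ C * (N : ℝ) ^ ε := by
    refine h3.trans ?_
    exact mul_le_mul (le_max_left _ _) h4 (by positivity) hCpos.le
  rw [← div_eq_mul_inv, le_div_iff₀ (by positivity)]
  exact h5

end Stx
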